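import Pool.Agent.H21.UE.WB
import Pool.Agent.H48.M5.L1

/-!
# Lemma W in density form

`nu = m0 + th * om + S`: `m0`, `om` are functions of the line, `th`, `S` of the (generalised)
time. If the velocity is active on all blocks and events, given its own digits and the digits of
the position `m0`, and the digits of `nu` at a typical time are nearly independent of `om`, then
the digits of `nu` are full.
-/

set_option autoImplicit false

namespace Pool.UE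

open Finset Real
open Pool.Agent.H49.Ent Pool.Agent.H32.Dense Pool.STK Pool.KA Pool.K2S

/-- **(WD)** Lemma W in density form. -/
def WDStmt : Prop :=
  ∀ (ε ca : ℝ), 0 < ε → 0 < ca → ∃ (η ϖ ι : ℝ) (n₀ : ℕ), 0 < η ∧ 0 < ϖ ∧ 0 < ι ∧
    ∀ (Ω β Λ Θ : Type) [Fintype Ω] (p : Ω → ℝ) (b : Ω → β) (L : Ω → Λ) (T : Ω → Θ)
      (om m0 th S nu : Ω → ℝ) (X : ℕ), WData p b L T om m0 th S nu → n₀ ≤ X →
      Pool.KVA.MI p T L b ≤ ι * X →
      (1 - ι) * X * Real.log 2 ≤ CH p (Uni.dg X th) (fun ω => (L ω, b ω)) →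
      CH p (Uni.dg X nu) (fun ω => (b ω, T ω)) -
        CH p (Uni.dg X nu) (fun ω => (Uni.dg X om ω, (b ω, T ω))) ≤ ι * X →
      (∀ r X' : ℕ, η * X ≤ X' → r + X' ≤ X → ∀ A : Ω → Prop, ϖ ≤ Pe p A →
        ca * X' * Real.log 2 ≤ CH (Pool.Agent.H49.Ent.cond p A True) (Uni.dg (r + X') om)
          (fun ω => (Uni.dg r om ω, (Uni.dg r m0 ω, b ω)))) →
      (1 - ε) * X * Real.log 2 ≤ CH p (Uni.dg X nu) (fun ω => (b ω, T ω))

variable {Ω Λ Θ β S T U V : Type} [Fintype Ω]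

/-- The independence at a coarser scale, given the digits of the position. -/
theorem indep_sub {p : Ω → ℝ} (hp : ∀ ω, 0 ≤ p ω) {V : Ω → S} {V' : Ω → T} {O O' Or : Ω → U}
    {Mr : Ω → ℤ} {c : Ω → Θ} (hV : Det p V' V) (hO : Det p O' O) (hOr : Det p O Or) :
    CH p V (fun ω => (Mr ω, (Or ω, c ω))) - CH p V (fun ω => (O ω, (Mr ω, (Or ω, c ω)))) ≤
      CH p V' c - CH p V' (fun ω => (O' ω, c ω)) +
        CH p Mr (fun ω => (V ω, (Or ω, c ω))) := by
  -- `A1`, `A2`: the position and `Mr`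
  have a1 := CH_chain hp V Mr (fun ω => (Or ω, c ω))
  have a2 := CH_chain hp Mr V (fun ω => (Or ω, c ω))
  have a3 := CH_chain hp V Mr (fun ω => (O ω, c ω))
  have a4 : CH p (fun ω => (V ω, Mr ω)) (fun ω => (Or ω, c ω)) =
      CH p (fun ω => (Mr ω, V ω)) (fun ω => (Or ω, c ω)) := by
    refine CH_congr hp ?_ ?_ (fun _ _ _ _ e => e) (fun _ _ _ _ e => e)
    · intro ω ω' _ _ e
      have e1 := Prod.ext_iff.mp (Prod.ext_iff.mp e).1
      exact Prod.ext e1.2 e1.1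
    · intro ω ω' _ _ e
      have e1 := Prod.ext_iff.mp (Prod.ext_iff.mp e).1
      exact Prod.ext e1.2 e1.1
  have a5 : CH p V (fun ω => (O ω, c ω)) ≤ CH p (fun ω => (V ω, Mr ω)) (fun ω => (O ω, c ω)) :=
    CH_mono_left hp fun _ _ _ _ e => (Prod.ext_iff.mp (Prod.ext_iff.mp e).1).1
  have a6 : CH p Mr (fun ω => (O ω, c ω)) ≤ CH p Mr (fun ω => (Or ω, c ω)) :=
    CH_mono_cond hp fun ω ω' a b e => Prod.ext (hOr ω ω' a b (Prod.ext_iff.mp e).1)
      (Prod.ext_iff.mp e).2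
  have a7 : CH p V (fun ω => (Mr ω, (O ω, c ω))) ≤
      CH p V (fun ω => (O ω, (Mr ω, (Or ω, c ω)))) := by
    refine CH_mono_cond hp fun ω ω' a b e => ?_
    have e1 := Prod.ext_iff.mp e
    have e2 := Prod.ext_iff.mp e1.2
    exact Prod.ext e2.1 (Prod.ext e1.1 (Prod.ext (hOr ω ω' a b e2.1) e2.2))
  have a8 : CH p V (fun ω => (Or ω, c ω)) ≤ CH p V c :=
    CH_mono_cond hp fun _ _ _ _ e => (Prod.ext_iff.mp e).2
  -- the finer position
  have b1 := CH_chain hp V O c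
  have b2 := CH_chain hp O V c
  have b3 : CH p (fun ω => (V ω, O ω)) c = CH p (fun ω => (O ω, V ω)) c := by
    refine CH_congr hp ?_ ?_ (fun _ _ _ _ e => e) (fun _ _ _ _ e => e)
    · intro ω ω' _ _ e
      have e1 := Prod.ext_iff.mp (Prod.ext_iff.mp e).1
      exact Prod.ext e1.2 e1.1
    · intro ω ω' _ _ e
      have e1 := Prod.ext_iff.mp (Prod.ext_iff.mp e).1
      exact Prod.ext e1.2 e1.1
  have b4 := CH_chain hp V' O c
  have b5 := CH_chain hp O V' c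
  have b6 : CH p (fun ω => (V' ω, O ω)) c = CH p (fun ω => (O ω, V' ω)) c := by
    refine CH_congr hp ?_ ?_ (fun _ _ _ _ e => e) (fun _ _ _ _ e => e)
    · intro ω ω' _ _ e
      have e1 := Prod.ext_iff.mp (Prod.ext_iff.mp e).1
      exact Prod.ext e1.2 e1.1
    · intro ω ω' _ _ e
      have e1 := Prod.ext_iff.mp (Prod.ext_iff.mp e).1
      exact Prod.ext e1.2 e1.1
  have b7 : CH p O (fun ω => (V' ω, c ω)) ≤ CH p O (fun ω => (V ω, c ω)) :=
    CH_mono_cond hp fun ω ω' a b e => Prod.ext (hV ω ω' a b (Prod.ext_iff.mp e).1)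
      (Prod.ext_iff.mp e).2
  have b8 : CH p V' (fun ω => (O' ω, c ω)) ≤ CH p V' (fun ω => (O ω, c ω)) :=
    CH_mono_cond hp fun ω ω' a b e => Prod.ext (hO ω ω' a b (Prod.ext_iff.mp e).1)
      (Prod.ext_iff.mp e).2
  linarith only [a1, a2, a3, a4, a5, a6, a7, a8, b1, b2, b3, b4, b5, b6, b7, b8]

omit [Fintype Ω] in
/-- The data at the scale `2 ^ (-r)`. -/
theorem WData.zoom {p : Ω → ℝ} [Fintype Ω] {b : Ω → β} {L : Ω → Λ} {T : Ω → Θ}
    {om m0 th S nu : Ω → ℝ} (h : WData p b L T om m0 th S nu) (r : ℕ) :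
    WData p (fun ω => (Uni.dg r m0 ω, (Uni.dg r om ω, b ω))) L T
      (fun ω => 2 ^ r * om ω - ⌊(2 : ℝ) ^ r * om ω⌋)
      (fun ω => 2 ^ r * m0 ω - ⌊(2 : ℝ) ^ r * m0 ω⌋) th
      (fun ω => 2 ^ r * S ω + ⌊(2 : ℝ) ^ r * m0 ω⌋ + th ω * ⌊(2 : ℝ) ^ r * om ω⌋)
      (fun ω => 2 ^ r * nu ω) := by
  have key : ∀ {τ σ : Type} {A : Ω → τ} {x : Ω → σ}, Det p (fun ω => (b ω, A ω)) x →
      Det p (fun ω => ((Uni.dg r m0 ω, (Uni.dg r om ω, b ω)), A ω)) x := by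
    intro τ σ A x hx ω ω' a a' e
    have e1 := Prod.ext_iff.mp e
    have e2 := Prod.ext_iff.mp e1.1
    have e3 := Prod.ext_iff.mp e2.2
    exact hx ω ω' a a' (Prod.ext e3.2 e1.2)
  refine ⟨h.law, ?_, ?_, key h.dth, ?_, ?_, h.hth, ?_⟩
  · intro ω ω' a a' e
    have := key h.dom ω ω' a a' e
    show 2 ^ r * om ω - (⌊(2 : ℝ) ^ r * om ω⌋ : ℝ) = 2 ^ r * om ω' - (⌊(2 : ℝ) ^ r * om ω'⌋ : ℝ)
    rw [this]
  · intro ω ω' a a' e
    have := key h.dm0 ω ω' a a' e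
    show 2 ^ r * m0 ω - (⌊(2 : ℝ) ^ r * m0 ω⌋ : ℝ) = 2 ^ r * m0 ω' - (⌊(2 : ℝ) ^ r * m0 ω'⌋ : ℝ)
    rw [this]
  · intro ω ω' a a' e
    have h1 := key h.dS ω ω' a a' e
    have h2 := key h.dth ω ω' a a' e
    have e1 := Prod.ext_iff.mp e
    have e2 := Prod.ext_iff.mp e1.1
    have e3 := Prod.ext_iff.mp e2.2
    have e4 : (⌊(2 : ℝ) ^ r * m0 ω⌋ : ℤ) = ⌊(2 : ℝ) ^ r * m0 ω'⌋ := e2.1
    have e5 : (⌊(2 : ℝ) ^ r * om ω⌋ : ℤ) = ⌊(2 : ℝ) ^ r * om ω'⌋ := e3.1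
    show 2 ^ r * S ω + (⌊(2 : ℝ) ^ r * m0 ω⌋ : ℝ) + th ω * (⌊(2 : ℝ) ^ r * om ω⌋ : ℝ) =
      2 ^ r * S ω' + (⌊(2 : ℝ) ^ r * m0 ω'⌋ : ℝ) + th ω' * (⌊(2 : ℝ) ^ r * om ω'⌋ : ℝ)
    rw [h1, h2, e4, e5]
  · intro ω hω
    have f1 := Int.floor_le ((2 : ℝ) ^ r * om ω)
    have f2 := Int.lt_floor_add_one ((2 : ℝ) ^ r * om ω)
    constructor
    · show 0 ≤ 2 ^ r * om ω - (⌊(2 : ℝ) ^ r * om ω⌋ : ℝ)
      linarith only [f1]
    · show 2 ^ r * om ω - (⌊(2 : ℝ) ^ r * om ω⌋ : ℝ) < 1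
      linarith only [f2]
  · intro ω hω
    show 2 ^ r * nu ω = 2 ^ r * m0 ω - (⌊(2 : ℝ) ^ r * m0 ω⌋ : ℝ) +
      th ω * (2 ^ r * om ω - (⌊(2 : ℝ) ^ r * om ω⌋ : ℝ)) +
      (2 ^ r * S ω + (⌊(2 : ℝ) ^ r * m0 ω⌋ : ℝ) + th ω * (⌊(2 : ℝ) ^ r * om ω⌋ : ℝ))
    rw [h.hnu ω hω]
    ring

omit [Fintype Ω] in
/-- The digits of the scaled position. -/
theorem dg_scale (x : Ω → ℝ) (r j : ℕ) :
    Uni.dg j (fun ω => 2 ^ r * x ω) = Uni.dg (r + j) x := by
  funext ω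
  show ⌊(2 : ℝ) ^ j * (2 ^ r * x ω)⌋ = ⌊(2 : ℝ) ^ (r + j) * x ω⌋
  congr 1
  rw [pow_add]
  ring

/-- **Lemma W in density form.** -/
theorem wd_of (hN1 : Pool.M5.N1Stmt) : WDStmt := by
  classical
  intro ε₀ ca hε₀ hca
  obtain ⟨ε, hε⟩ : ∃ ε, ε = min ε₀ 1 := ⟨_, rfl⟩
  have hεp : 0 < ε := by rw [hε]; exact lt_min hε₀ one_pos
  have hε1 : ε ≤ 1 := by rw [hε]; exact min_le_right _ _
  have hεε : ε ≤ ε₀ := by rw [hε]; exact min_le_left _ _
  obtain ⟨κ, ϖ₁, ι, X₁, hκ, hκ1, hϖ₁, hι, hW⟩ := wb hN1 (ε / 32) ca (by positivity) hca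
  obtain ⟨η, ϖ, n₁, hη, hϖ, hsel⟩ := Sel.sel ε κ hεp hε1 hκ
  obtain ⟨u, hu⟩ : ∃ u, u = Real.log 2 := ⟨_, rfl⟩
  have hu0 : 0 < u := by rw [hu]; exact log_two_pos
  have hu1 : u ≤ 1 := by rw [hu]; exact log_two_le
  obtain ⟨K, hK⟩ : ∃ K, K = u + Real.log (2 * 3 + 1) := ⟨_, rfl⟩
  have hK0 : 0 ≤ Real.log (2 * 3 + 1) := Real.log_nonneg (by norm_num)
  obtain ⟨ι₂, hι₂⟩ : ∃ ι₂, ι₂ = ϖ * ι * η * u / 2 := ⟨_, rfl⟩
  have hι₂0 : 0 < ι₂ := by rw [hι₂]; positivity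
  obtain ⟨X₂, hX₂⟩ := exists_nat_ge (X₁ / η + K / ι₂ + 2 / κ / η)
  refine ⟨η, ϖ, ι₂, n₁ + X₂ + 1, hη, hϖ, hι₂0, ?_⟩
  intro Ω β Λ Θ _ p b L T om m0 th S nu X hd hX h1 h1' h2 h4
  have hp := hd.law
  have h0 := hp.nonneg
  have hX1 : 1 ≤ X := by omega
  have hXr : (0 : ℝ) < X := by exact_mod_cast hX1
  have hXX₂ : X₁ / η + K / ι₂ + 2 / κ / η ≤ X :=
    hX₂.trans (by exact_mod_cast (by omega : X₂ ≤ X))
  have hq1 : (0 : ℝ) ≤ X₁ / η := by positivity
  have hq3 : 0 ≤ 2 / κ / η := by positivity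
  have hq2 : 0 ≤ K / ι₂ := by rw [hK]; positivity
  have hKX : K ≤ ι₂ * X := by
    have : K / ι₂ ≤ X := by linarith only [hXX₂, hq1, hq3]
    rw [div_le_iff₀ hι₂0] at this
    linarith only [this]
  have hX1r : (X₁ : ℝ) ≤ η * X := by
    have : (X₁ / η : ℝ) ≤ X := by linarith only [hXX₂, hq3, hq2]
    rw [div_le_iff₀ hη] at this
    linarith only [this]
  have hX2r : 2 / κ ≤ η * X := by
    have : 2 / κ / η ≤ X := by linarith only [hXX₂, hq1, hq2]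
    rw [div_le_iff₀ hη] at this
    linarith only [this]
  by_contra hcon
  have hcon := not_le.1 hcon
  have hCH : CH p (Uni.dg X nu) (fun ω => (Uni.dg 0 nu ω, (b ω, T ω))) ≤
      (1 - ε) * X * Real.log 2 := by
    have h1 : CH p (Uni.dg X nu) (fun ω => (Uni.dg 0 nu ω, (b ω, T ω))) ≤
        CH p (Uni.dg X nu) (fun ω => (b ω, T ω)) :=
      CH_mono_cond h0 fun ω ω' _ _ e => (Prod.ext_iff.mp e).2
    have h2 : (1 - ε₀) * X * Real.log 2 ≤ (1 - ε) * X * Real.log 2 := by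
      rw [← hu]
      exact mul_le_mul_of_nonneg_right (mul_le_mul_of_nonneg_right (by linarith only [hεε]) hXr.le) hu0.le
    linarith
  obtain ⟨r, X', A, -, -, hrX, hηX, hA, hq⟩ := hsel p (fun r => Uni.dg r nu)
    (fun ω => (b ω, T ω)) 1 X hp (Sel.nst_dg _) le_rfl hX1 (by omega) hCH
  have hApos : 0 < Pe p A := hϖ.trans_le hA
  obtain ⟨q, hqdef⟩ : ∃ q, q = Pool.Agent.H49.Ent.cond p A True := ⟨_, rfl⟩
  have hqlaw : IsLaw q := by rw [hqdef]; exact Uni.isLaw_cond' h0 A hApos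
  have hq0 := hqlaw.nonneg
  have hqA : ∀ ω, 0 < q ω → 0 < p ω ∧ A ω := fun ω hω => by
    rw [hqdef] at hω
    have := (cond_pos_iff h0 A True ω).1 hω
    exact ⟨this.1, of_eq_true this.2⟩
  have hqp : ∀ ω, 0 < q ω → 0 < p ω := fun ω hω => (hqA ω hω).1
  have hX1' : X₁ ≤ X' := by
    have : (X₁ : ℝ) ≤ X' := hX1r.trans hηX
    exact_mod_cast this
  have hX'r : (0 : ℝ) ≤ X' := Nat.cast_nonneg _
  -- the losses
  have hloss : ∀ x : ℝ, Pe p A * x ≤ ι₂ * X + K → x ≤ ι * X' * u := by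
    intro x hx
    by_contra hc
    have hc := not_le.1 hc
    have e1 : ϖ * (ι * X' * u) ≤ Pe p A * (ι * X' * u) :=
      mul_le_mul_of_nonneg_right hA (by positivity)
    have e2 : Pe p A * (ι * X' * u) < Pe p A * x := mul_lt_mul_of_pos_left hc hApos
    have e3 : ϖ * ι * u * (η * X) ≤ ϖ * ι * u * X' := mul_le_mul_of_nonneg_left hηX (by positivity)
    have e4 : ι₂ * X = ϖ * ι * u * (η * X) / 2 := by rw [hι₂]; ring
    linarith only [hKX, hx, e1, e2, e3, e4]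
  obtain ⟨br, hbr⟩ : ∃ br : Ω → ℤ × (ℤ × β),
    br = fun ω => (Uni.dg r m0 ω, (Uni.dg r om ω, b ω)) := ⟨_, rfl⟩
  have hLb : Det p (fun ω => (L ω, b ω)) (fun ω => (L ω, br ω)) := by
    intro ω ω' a a' e
    have e1 := Prod.ext_iff.mp e
    have e2 := hd.dom ω ω' a a' (Prod.ext e1.2 e1.1)
    have e3 := hd.dm0 ω ω' a a' (Prod.ext e1.2 e1.1)
    rw [hbr]
    refine Prod.ext e1.1 (Prod.ext ?_ (Prod.ext ?_ e1.2))
    · show ⌊(2 : ℝ) ^ r * m0 ω⌋ = ⌊(2 : ℝ) ^ r * m0 ω'⌋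
      rw [e3]
    · show ⌊(2 : ℝ) ^ r * om ω⌋ = ⌊(2 : ℝ) ^ r * om ω'⌋
      rw [e2]
  have hLbq : Det q (fun ω => (L ω, b ω)) (fun ω => (L ω, br ω)) :=
    fun ω ω' a a' e => hLb ω ω' (hqp ω a) (hqp ω' a') e
  have hbrb : ∀ {P : Ω → ℝ}, Det P br b := fun {P} ω ω' _ _ e => by
    rw [hbr] at e
    exact (Prod.ext_iff.mp (Prod.ext_iff.mp e).2).2
  have hzoom : WData q br L T (fun ω => 2 ^ r * om ω - ⌊(2 : ℝ) ^ r * om ω⌋)
      (fun ω => 2 ^ r * m0 ω - ⌊(2 : ℝ) ^ r * m0 ω⌋) th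
      (fun ω => 2 ^ r * S ω + ⌊(2 : ℝ) ^ r * m0 ω⌋ + th ω * ⌊(2 : ℝ) ^ r * om ω⌋)
      (fun ω => 2 ^ r * nu ω) := by
    rw [hbr]
    exact WData.mono_law (WData.zoom hd r) hqlaw hqp
  -- the velocity
  have hvel : Uni.dg X' (fun ω => 2 ^ r * om ω - ⌊(2 : ℝ) ^ r * om ω⌋) =
      fun ω => Uni.dg (r + X') om ω - 2 ^ X' * Uni.dg r om ω := by
    funext ω
    exact zoom_floor (om ω) r X'
  have huX : ι * X' * u ≤ ι * X' := by
    have : 0 ≤ ι * X' := by positivity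
    nlinarith only [hu1, this]
  refine hW Ω (ℤ × (ℤ × β)) Λ Θ q br L T _ _ th _ _ X' hzoom hX1' ?_ ?_ ?_ ?_ ?_
  · -- the line and the time
    refine le_trans ?_ huX
    refine hloss _ ?_
    have c1 := mi_event hp A T L b
    rw [← hqdef] at c1
    have c2 : CH q T br ≤ CH q T b := CH_mono_cond hq0 hbrb
    have c3 : CH q T (fun ω => (L ω, b ω)) ≤ CH q T (fun ω => (L ω, br ω)) :=
      CH_mono_cond hq0 hLbq
    have c4 : Pe p A * (CH q T br - CH q T (fun ω => (L ω, br ω))) ≤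
        Pe p A * (CH q T b - CH q T (fun ω => (L ω, b ω))) :=
      mul_le_mul_of_nonneg_left (by linarith only [c2, c3]) hApos.le
    have c5 := CH_chain h0 T L b
    unfold Pool.KVA.MI at h1
    rw [c5] at h1
    rw [← hu] at c1
    linarith only [hK, hK0, h1, c1, c4]
  · -- the time is full
    have c1 := def_event hp A (Uni.dg X' th) (fun ω => (L ω, b ω)) (M := X' * Real.log 2)
      (fun q' hq' hq'p => Uni.dg_card hq' X' (x := th)
        (fun v hv => hd.hth v (hq'p v hv)) _)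
    rw [← hqdef] at c1
    have c2 : CH q (Uni.dg X' th) (fun ω => (L ω, b ω)) ≤
        CH q (Uni.dg X' th) (fun ω => (L ω, br ω)) := CH_mono_cond hq0 hLbq
    have c3 := CH_dg_le hp th (by omega : X' ≤ X) (fun ω => (L ω, b ω))
    rw [← hu] at c1 c3 h1' ⊢
    have c4 := hloss (X' * u - CH q (Uni.dg X' th) (fun ω => (L ω, b ω))) (by
      have : ι₂ * X * u ≤ ι₂ * X * 1 := mul_le_mul_of_nonneg_left hu1 (by positivity)
      linarith only [hK, hK0, h1', c1, c3, this])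
    linarith only [c2, c4]
  · -- the position
    refine le_trans ?_ huX
    refine hloss _ ?_
    have c1 := mi_event hp A (Uni.dg (r + X') nu) (Uni.dg (r + X') om) (fun ω => (br ω, T ω))
    rw [← hqdef] at c1
    have c2 : CH q (Uni.dg (r + X') nu) (fun ω => (Uni.dg (r + X') om ω, (br ω, T ω))) ≤
        CH q (Uni.dg X' (fun ω => 2 ^ r * nu ω))
          (fun ω => (Uni.dg X' (fun ω => 2 ^ r * om ω - ⌊(2 : ℝ) ^ r * om ω⌋) ω,
            (br ω, T ω))) := by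
      rw [dg_scale, hvel]
      refine CH_mono_cond hq0 fun ω ω' _ _ e => ?_
      have e1 := Prod.ext_iff.mp e
      have e2 : Uni.dg (r + X') om ω = Uni.dg (r + X') om ω' := e1.1
      have e3 : Uni.dg r om ω = Uni.dg r om ω' := dg_eq_of (Nat.le_add_right r X') e2
      refine Prod.ext ?_ e1.2
      show Uni.dg (r + X') om ω - 2 ^ X' * Uni.dg r om ω =
        Uni.dg (r + X') om ω' - 2 ^ X' * Uni.dg r om ω'
      rw [e2, e3]
    have c3 : CH q (Uni.dg X' (fun ω => 2 ^ r * nu ω)) (fun ω => (br ω, T ω)) =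
        CH q (Uni.dg (r + X') nu) (fun ω => (br ω, T ω)) := by
      rw [dg_scale]
    rw [c3]
    have c4 : Pe p A * (CH q (Uni.dg (r + X') nu) (fun ω => (br ω, T ω)) -
        CH q (Uni.dg X' (fun ω => 2 ^ r * nu ω))
          (fun ω => (Uni.dg X' (fun ω => 2 ^ r * om ω - ⌊(2 : ℝ) ^ r * om ω⌋) ω,
            (br ω, T ω)))) ≤
        Pe p A * (CH q (Uni.dg (r + X') nu) (fun ω => (br ω, T ω)) -
          CH q (Uni.dg (r + X') nu) (fun ω => (Uni.dg (r + X') om ω, (br ω, T ω)))) :=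
      mul_le_mul_of_nonneg_left (by linarith only [c2]) hApos.le
    refine c4.trans (c1.trans ?_)
    have d1 := indep_sub h0 (V := Uni.dg (r + X') nu) (V' := Uni.dg X nu)
      (O := Uni.dg (r + X') om) (O' := Uni.dg X om) (Or := Uni.dg r om) (Mr := Uni.dg r m0)
      (c := fun ω => (b ω, T ω)) (fun _ _ _ _ e => dg_eq_of (by omega) e)
      (fun _ _ _ _ e => dg_eq_of (by omega) e) (fun _ _ _ _ e => dg_eq_of (by omega) e)
    have d2 : CH p (Uni.dg (r + X') nu) (fun ω => (br ω, T ω)) =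
        CH p (Uni.dg (r + X') nu) (fun ω => (Uni.dg r m0 ω, (Uni.dg r om ω, (b ω, T ω)))) := by
      refine CH_congr h0 ?_ ?_ ?_ ?_
      · exact fun _ _ _ _ e => (Prod.ext_iff.mp e).1
      · exact fun _ _ _ _ e => (Prod.ext_iff.mp e).1
      · intro ω ω' _ _ e
        rw [hbr] at e
        have e1 := Prod.ext_iff.mp e
        have e2 := Prod.ext_iff.mp e1.1
        have e3 := Prod.ext_iff.mp e2.2
        exact Prod.ext e2.1 (Prod.ext e3.1 (Prod.ext e3.2 e1.2))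
      · intro ω ω' _ _ e
        have e1 := Prod.ext_iff.mp e
        have e2 := Prod.ext_iff.mp e1.2
        have e3 := Prod.ext_iff.mp e2.2
        rw [hbr]
        exact Prod.ext (Prod.ext e1.1 (Prod.ext e2.1 e3.1)) e3.2
    have d3 : CH p (Uni.dg (r + X') nu) (fun ω => (Uni.dg (r + X') om ω, (br ω, T ω))) =
        CH p (Uni.dg (r + X') nu) (fun ω => (Uni.dg (r + X') om ω,
          (Uni.dg r m0 ω, (Uni.dg r om ω, (b ω, T ω))))) := by
      refine CH_congr h0 ?_ ?_ ?_ ?_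
      · exact fun _ _ _ _ e => (Prod.ext_iff.mp e).1
      · exact fun _ _ _ _ e => (Prod.ext_iff.mp e).1
      · intro ω ω' _ _ e
        rw [hbr] at e
        have e0 := Prod.ext_iff.mp e
        have e1 := Prod.ext_iff.mp e0.2
        have e2 := Prod.ext_iff.mp e1.1
        have e3 := Prod.ext_iff.mp e2.2
        exact Prod.ext e0.1 (Prod.ext e2.1 (Prod.ext e3.1 (Prod.ext e3.2 e1.2)))
      · intro ω ω' _ _ e
        have e0 := Prod.ext_iff.mp e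
        have e1 := Prod.ext_iff.mp e0.2
        have e2 := Prod.ext_iff.mp e1.2
        have e3 := Prod.ext_iff.mp e2.2
        rw [hbr]
        exact Prod.ext e0.1 (Prod.ext (Prod.ext e1.1 (Prod.ext e2.1 e3.1)) e3.2)
    -- the position at the time `0` is known from the position
    have d4 : CH p (Uni.dg r m0)
        (fun ω => (Uni.dg (r + X') nu ω, (Uni.dg r om ω, (b ω, T ω)))) ≤
        Real.log (2 * 3 + 1) := by
      refine Sel.CH_near hp _ _ (fun ω => (Uni.dg r nu ω : ℝ) - th ω * Uni.dg r om ω -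
        2 ^ r * S ω) ?_ (by norm_num) ?_
      · intro ω ω' a a' e
        have e1 := Prod.ext_iff.mp e
        have e2 := Prod.ext_iff.mp e1.2
        have e3 : Uni.dg (r + X') nu ω = Uni.dg (r + X') nu ω' := e1.1
        have e4 : Uni.dg r nu ω = Uni.dg r nu ω' := dg_eq_of (Nat.le_add_right r X') e3
        have e5 : Uni.dg r om ω = Uni.dg r om ω' := e2.1
        have e6 := hd.dth ω ω' a a' e2.2
        have e7 := hd.dS ω ω' a a' e2.2
        show (Uni.dg r nu ω : ℝ) - th ω * Uni.dg r om ω - 2 ^ r * S ω =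
          (Uni.dg r nu ω' : ℝ) - th ω' * Uni.dg r om ω' - 2 ^ r * S ω'
        rw [e4, e5, e6, e7]
      · intro ω hω
        show |(⌊(2 : ℝ) ^ r * m0 ω⌋ : ℝ) - ((⌊(2 : ℝ) ^ r * nu ω⌋ : ℝ) -
          th ω * (⌊(2 : ℝ) ^ r * om ω⌋ : ℝ) - 2 ^ r * S ω)| ≤ 3
        obtain ⟨t1, t2⟩ := hd.hth ω hω
        have f1 := Int.floor_le ((2 : ℝ) ^ r * m0 ω)
        have f2 := Int.lt_floor_add_one ((2 : ℝ) ^ r * m0 ω)
        have f3 := Int.floor_le ((2 : ℝ) ^ r * nu ω)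
        have f4 := Int.lt_floor_add_one ((2 : ℝ) ^ r * nu ω)
        have f5 := Int.floor_le ((2 : ℝ) ^ r * om ω)
        have f6 := Int.lt_floor_add_one ((2 : ℝ) ^ r * om ω)
        have f7 : |th ω * (2 ^ r * om ω - (⌊(2 : ℝ) ^ r * om ω⌋ : ℝ))| ≤ 1 := by
          rw [abs_of_nonneg (mul_nonneg t1 (by linarith only [f5]))]
          exact mul_le_one₀ t2.le (by linarith only [f5]) (by linarith only [f6])
        have f8 : (2 : ℝ) ^ r * nu ω = 2 ^ r * m0 ω + th ω * (2 ^ r * om ω) + 2 ^ r * S ω := by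
          rw [hd.hnu ω hω]
          ring
        rw [abs_le] at f7 ⊢
        constructor <;> linarith [f7.1, f7.2]
    rw [d2, d3]
    have hKK : Real.log 2 = u := hu.symm
    rw [hKK]
    linarith only [hK, h2, d1, d4]
  · -- the activity
    refine (h4 r X' hηX hrX A hA).trans (le_of_eq ?_)
    rw [← hqdef, hvel]
    refine CH_congr hq0 ?_ ?_ ?_ ?_
    · intro ω ω' _ _ e
      have e1 := Prod.ext_iff.mp e
      have e2 := Prod.ext_iff.mp e1.2
      have e3 : Uni.dg (r + X') om ω = Uni.dg (r + X') om ω' := e1.1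
      have e4 : Uni.dg r om ω = Uni.dg r om ω' := e2.1
      show Uni.dg (r + X') om ω - 2 ^ X' * Uni.dg r om ω =
        Uni.dg (r + X') om ω' - 2 ^ X' * Uni.dg r om ω'
      rw [e3, e4]
    · intro ω ω' _ _ e
      have e1 := Prod.ext_iff.mp e
      have e3 : Uni.dg (r + X') om ω - 2 ^ X' * Uni.dg r om ω =
        Uni.dg (r + X') om ω' - 2 ^ X' * Uni.dg r om ω' := e1.1
      have e5 := e1.2
      rw [hbr] at e5
      have e4 : Uni.dg r om ω = Uni.dg r om ω' :=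
        (Prod.ext_iff.mp (Prod.ext_iff.mp e5).2).1
      rw [e4] at e3
      linarith only [e3]
    · intro ω ω' _ _ e
      have e1 := Prod.ext_iff.mp e
      have e2 := Prod.ext_iff.mp e1.2
      rw [hbr]
      exact Prod.ext e2.1 (Prod.ext e1.1 e2.2)
    · intro ω ω' _ _ e
      rw [hbr] at e
      have e1 := Prod.ext_iff.mp e
      have e2 := Prod.ext_iff.mp e1.2
      exact Prod.ext e2.1 (Prod.ext e1.1 e2.2)
  · -- the rows
    intro j hj E hE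
    obtain ⟨h, hh⟩ : ∃ h, h = ⌊κ * X'⌋₊ := ⟨_, rfl⟩
    rw [← hh] at hj ⊢
    have hEpos : 0 < Pe q E := hϖ₁.trans_le hE
    have hElaw : IsLaw (Pool.Agent.H49.Ent.cond q E True) := Uni.isLaw_cond' hq0 E hEpos
    have hEp : ∀ ω, 0 < Pool.Agent.H49.Ent.cond q E True ω → 0 < p ω ∧ A ω := fun ω hω =>
      hqA ω ((cond_pos_iff hq0 E True ω).1 hω).1
    have hjh : j * h ≤ (j + 1) * h := Nat.mul_le_mul_right h (by omega)
    have hκX : 2 ≤ κ * X' := by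
      have : 2 / κ ≤ X' := hX2r.trans hηX
      rw [div_le_iff₀ hκ] at this
      linarith only [this]
    have hhlo : κ * X' ≤ 2 * h := by
      have : κ * X' < h + 1 := by rw [hh]; exact Nat.lt_floor_add_one _
      linarith only [hκX, this]
    have e1 := hq _ hElaw hEp (j * h) ((j + 1) * h) hjh hj (by
      push_cast
      linarith only [hhlo])
    have e3 : (((j + 1) * h : ℕ) : ℝ) - ((j * h : ℕ) : ℝ) = h := by
      push_cast
      ring
    rw [e3] at e1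
    have e4 : CH (Pool.Agent.H49.Ent.cond q E True) (Uni.dg (r + (j + 1) * h) nu)
        (fun ω => (Uni.dg (r + j * h) nu ω, (br ω, T ω))) ≤
        CH (Pool.Agent.H49.Ent.cond q E True) (Uni.dg (r + (j + 1) * h) nu)
        (fun ω => (Uni.dg (r + j * h) nu ω, (b ω, T ω))) :=
      CH_mono_cond hElaw.nonneg fun ω ω' a a' e => by
        have e5 := Prod.ext_iff.mp e
        have e6 := Prod.ext_iff.mp e5.2
        exact Prod.ext e5.1 (Prod.ext (hbrb ω ω' a a' e6.1) e6.2)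
    rw [dg_scale, dg_scale]
    have e7 : (1 - ε / 16) * (h * Real.log 2) ≤ (1 - ε / 32) * h * Real.log 2 := by
      have : 0 ≤ ε * (h * u) := by positivity
      rw [← hu]
      linarith only [this]
    exact e4.trans (e1.trans e7)

/-- **Lemma W in density form.** -/
theorem wd : WDStmt := wd_of Pool.M5.n1

end Pool.UE
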