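import Pool.Agent.H21.UE.WOne

/-!
# Lemma W for a family of contexts
-/

set_option autoImplicit false

namespace Pool.UE

open Finset Real
open Pool.Agent.H49.Ent Pool.Agent.H32.Dense Pool.STK Pool.KA Pool.K2S

variable {Ω Λ Θ β S T U V : Type} [Fintype Ω]

theorem WData.cond {p : Ω → ℝ} {b : Ω → β} {L : Ω → Λ} {T : Ω → Θ}
    {om m0 th S nu : Ω → ℝ} (h : WData p b L T om m0 th S nu) {z : β}
    (hz : 0 < Pool.Agent.H49.Ent.law p b z) :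
    WData (Pool.Agent.H49.Ent.cond p b z) (fun _ => ()) L T om m0 th S nu := by
  have h0 := h.law.nonneg
  have hp : ∀ ω, 0 < Pool.Agent.H49.Ent.cond p b z ω → 0 < p ω ∧ b ω = z := fun ω hω =>
    (cond_pos_iff h0 b z ω).1 hω
  have key : ∀ {τ : Type} {A : Ω → τ} {x : Ω → ℝ}, Det p (fun ω => (b ω, A ω)) x →
      Det (Pool.Agent.H49.Ent.cond p b z) (fun ω => ((), A ω)) x := by
    intro τ A x hd ω ω' a a' e
    obtain ⟨c1, c2⟩ := hp ω a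
    obtain ⟨c3, c4⟩ := hp ω' a'
    exact hd ω ω' c1 c3 (Prod.ext (c2.trans c4.symm) (Prod.ext_iff.mp e).2)
  exact ⟨Uni.isLaw_cond' h0 b hz, key h.dom, key h.dm0, key h.dth, key h.dS,
    fun ω hω => h.hom ω (hp ω hω).1, fun ω hω => h.hth ω (hp ω hω).1,
    fun ω hω => h.hnu ω (hp ω hω).1⟩

theorem WData.mono_law {p q : Ω → ℝ} {b : Ω → β} {L : Ω → Λ} {T : Ω → Θ}
    {om m0 th S nu : Ω → ℝ} (h : WData p b L T om m0 th S nu) (hq : IsLaw q)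
    (hqp : ∀ ω, 0 < q ω → 0 < p ω) : WData q b L T om m0 th S nu := by
  have key : ∀ {τ σ : Type} {A : Ω → τ} {x : Ω → σ}, Det p A x → Det q A x :=
    fun hd ω ω' a a' e => hd ω ω' (hqp ω a) (hqp ω' a') e
  exact ⟨hq, key h.dom, key h.dm0, key h.dth, key h.dS, fun ω hω => h.hom ω (hqp ω hω),
    fun ω hω => h.hth ω (hqp ω hω), fun ω hω => h.hnu ω (hqp ω hω)⟩

theorem wbj (hN1 : Pool.M5.N1Stmt) : ∀ c ca : ℝ, 0 < c → 0 < ca →
    ∃ (κ ϖ ι ε₁ : ℝ) (j₀ X₀ : ℕ), 0 < κ ∧ κ ≤ 1 ∧ 0 < ϖ ∧ 0 < ι ∧ 0 < ε₁ ∧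
    ∀ (Ω β Λ Θ : Type) [Fintype Ω] (p : Ω → ℝ) (b : Ω → β) (L : Ω → Λ) (T : Ω → Θ)
      (om m0 th S nu : Ω → ℝ) (X : ℕ), WData p b L T om m0 th S nu → X₀ ≤ X →
      Pool.KVA.MI p T L b ≤ ι * X →
      (1 - ι) * X * Real.log 2 ≤ CH p (Uni.dg X th) (fun ω => (L ω, b ω)) →
      j₀ * Real.log 2 - ε₁ ≤ CH p (Uni.dg j₀ th) (fun ω => (L ω, b ω)) →
      CH p (Uni.dg X nu) (fun ω => (b ω, T ω)) -
        CH p (Uni.dg X nu) (fun ω => (Uni.dg X om ω, (b ω, T ω))) ≤ ι * X →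
      ca * X * Real.log 2 ≤ CH p (Uni.dg X om) b →
      (∀ j : ℕ, (j + 1) * ⌊κ * X⌋₊ ≤ X → ∀ E : Ω → Prop, ϖ ≤ Pe p E →
        CH (Pool.Agent.H49.Ent.cond p E True) (Uni.dg ((j + 1) * ⌊κ * X⌋₊) nu)
          (fun ω => (Uni.dg (j * ⌊κ * X⌋₊) nu ω, (b ω, T ω))) ≤
          (1 - c) * ⌊κ * X⌋₊ * Real.log 2) →
      False := by
  classical
  intro c ca hc hca
  have hl2 : 0 < Real.log 2 := Real.log_pos (by norm_num)
  have hl21 : Real.log 2 ≤ 1 := by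
    have := Real.log_two_lt_d9
    linarith
  obtain ⟨ca1, hca1⟩ : ∃ ca1, ca1 = min ca 1 := ⟨_, rfl⟩
  have hca1p : 0 < ca1 := by rw [hca1]; exact lt_min hca one_pos
  have hca1c : ca1 ≤ ca := by rw [hca1]; exact min_le_left _ _
  obtain ⟨κ, ϖ₀, ι₀, ε₀, j₀, X₁, hκ, hκ1, hϖ₀, hι₀, hε₀, hOC'⟩ :=
    hN1 1 2 c (ca1 / 4) hc (by positivity)
  obtain ⟨M, hM⟩ := exists_nat_gt (2 / κ + 1)
  refine ⟨κ, ϖ₀ * (ca1 / 4) * (κ / 2), ι₀ * ca1 / 64, ε₀ * ca1 / 64, j₀, max X₁ M,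
    hκ, hκ1, by positivity, by positivity, by positivity, ?_⟩
  intro Ω β Λ Θ _ p b L T om m0 th S nu X hd hX h1 h1' h1j h2 h4 h5
  have hXX : X₁ ≤ X := (le_max_left _ _).trans hX
  have hXM : (M : ℝ) ≤ X := by exact_mod_cast (le_max_right _ _).trans hX
  have hp := hd.law
  have h0 := hp.nonneg
  have q3 : 0 < 2 / κ := by positivity
  have hXpos : (0 : ℝ) < X := by linarith
  have r3 : 2 ≤ κ * X := by
    have : 2 / κ ≤ X := by linarith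
    rw [div_le_iff₀ hκ] at this
    linarith
  -- the number of blocks
  obtain ⟨h, hh⟩ : ∃ h, h = ⌊κ * X⌋₊ := ⟨_, rfl⟩
  have hh1 : (h : ℝ) ≤ κ * X := by rw [hh]; exact Nat.floor_le (by positivity)
  have hh2 : κ * X / 2 ≤ h := by
    have : κ * X < h + 1 := by rw [hh]; exact Nat.lt_floor_add_one _
    linarith
  have hhpos : 0 < h := by
    have : (0 : ℝ) < h := by linarith
    exact_mod_cast this
  -- the laws of the contexts
  obtain ⟨cd, hcd⟩ : ∃ cd : β → Ω → ℝ, cd = fun z => Pool.Agent.H49.Ent.cond p b z := ⟨_, rfl⟩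
  have hcl : ∀ ω, 0 < p ω → IsLaw (cd (b ω)) := fun ω hω => by
    rw [hcd]; exact Uni.isLaw_cond' h0 b (law_pos h0 b hω)
  have hcp : ∀ ω, 0 < p ω → ∀ v, 0 < cd (b ω) v → 0 < p v := fun ω hω v hv => by
    rw [hcd] at hv
    exact ((cond_pos_iff h0 b (b ω) v).1 hv).1
  obtain ⟨F1, hF1⟩ : ∃ F1 : β → ℝ, F1 = fun z => Pool.KVA.MI (cd z) T L (fun _ => ()) :=
    ⟨_, rfl⟩
  obtain ⟨F2, hF2⟩ : ∃ F2 : β → ℝ, F2 = fun z => X * Real.log 2 - CH (cd z) (Uni.dg X th) L :=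
    ⟨_, rfl⟩
  obtain ⟨F5, hF5⟩ : ∃ F5 : β → ℝ, F5 = fun z => j₀ * Real.log 2 -
    CH (cd z) (Uni.dg j₀ th) L := ⟨_, rfl⟩
  obtain ⟨F3, hF3⟩ : ∃ F3 : β → ℝ, F3 = fun z => CH (cd z) (Uni.dg X nu) T -
    CH (cd z) (Uni.dg X nu) (fun ω => (Uni.dg X om ω, T ω)) :=
    ⟨_, rfl⟩
  obtain ⟨Gf, hGf⟩ : ∃ Gf : β → ℝ, Gf = fun z => CH (cd z) (Uni.dg X om) (fun _ => ()) :=
    ⟨_, rfl⟩
  -- the means
  have m1 : Ex p (fun ω => F1 (b ω)) ≤ ι₀ * ca1 / 64 * X := by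
    rw [hF1, hcd]
    exact (le_of_eq (Uni.Ex_MI h0 b T L)).trans h1
  have m2 : Ex p (fun ω => F2 (b ω)) ≤ ι₀ * ca1 / 64 * X * Real.log 2 := by
    rw [hF2, hcd]
    have e1 : Ex p (fun ω => X * Real.log 2 - CH (Pool.Agent.H49.Ent.cond p b (b ω))
        (Uni.dg X th) L) = X * Real.log 2 - CH p (Uni.dg X th) (fun ω => (L ω, b ω)) := by
      rw [Ex_sub, Ex_const hp.sum_one, Pool.KX.JBG.Ex_CH h0 (Uni.dg X th) L b]
    refine (le_of_eq e1).trans ?_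
    linarith
  have m5 : Ex p (fun ω => F5 (b ω)) ≤ ε₀ * ca1 / 64 := by
    rw [hF5, hcd]
    have e1 : Ex p (fun ω => j₀ * Real.log 2 - CH (Pool.Agent.H49.Ent.cond p b (b ω))
        (Uni.dg j₀ th) L) = j₀ * Real.log 2 - CH p (Uni.dg j₀ th) (fun ω => (L ω, b ω)) := by
      rw [Ex_sub, Ex_const hp.sum_one, Pool.KX.JBG.Ex_CH h0 (Uni.dg j₀ th) L b]
    refine (le_of_eq e1).trans ?_
    linarith
  have m3 : Ex p (fun ω => F3 (b ω)) ≤ ι₀ * ca1 / 64 * X := by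
    rw [hF3, hcd]
    refine le_trans (le_of_eq ?_) h2
    show Ex p (fun ω => CH (Pool.Agent.H49.Ent.cond p b (b ω)) (Uni.dg X nu) T -
      CH (Pool.Agent.H49.Ent.cond p b (b ω)) (Uni.dg X nu)
        (fun ω => (Uni.dg X om ω, T ω))) = _
    rw [Ex_sub, Uni.Ex_swap h0, Uni.Ex_swap' h0 b (Uni.dg X nu) (Uni.dg X om) T]
  have mG : ca1 * X * Real.log 2 ≤ Ex p (fun ω => Gf (b ω)) := by
    rw [hGf, hcd]
    refine le_trans ?_ (le_of_eq (Uni.Ex_unit h0 b (Uni.dg X om)).symm)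
    refine le_trans ?_ h4
    exact mul_le_mul_of_nonneg_right (mul_le_mul_of_nonneg_right hca1c hXpos.le) hl2.le
  -- the signs
  have n1 : ∀ ω, 0 < p ω → 0 ≤ F1 (b ω) := fun ω hω => by
    rw [hF1]
    have := CH_subadd (hcl ω hω).nonneg T L (fun _ => ())
    show 0 ≤ CH (cd (b ω)) T (fun _ => ()) + CH (cd (b ω)) L (fun _ => ()) -
      CH (cd (b ω)) (fun v => (T v, L v)) (fun _ => ())
    linarith
  have n2 : ∀ ω, 0 < p ω → 0 ≤ F2 (b ω) := fun ω hω => by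
    rw [hF2]
    have := Uni.dg_card (hcl ω hω) X (x := th) (fun v hv => hd.hth v (hcp ω hω v hv)) L
    show 0 ≤ X * Real.log 2 - CH (cd (b ω)) (Uni.dg X th) L
    linarith
  have n5 : ∀ ω, 0 < p ω → 0 ≤ F5 (b ω) := fun ω hω => by
    rw [hF5]
    have := Uni.dg_card (hcl ω hω) j₀ (x := th) (fun v hv => hd.hth v (hcp ω hω v hv)) L
    show 0 ≤ j₀ * Real.log 2 - CH (cd (b ω)) (Uni.dg j₀ th) L
    linarith
  have n3 : ∀ ω, 0 < p ω → 0 ≤ F3 (b ω) := fun ω hω => by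
    rw [hF3]
    have : CH (cd (b ω)) (Uni.dg X nu) (fun v => (Uni.dg X om v, T v)) ≤
        CH (cd (b ω)) (Uni.dg X nu) T :=
      CH_mono_cond (hcl ω hω).nonneg fun _ _ _ _ e => (Prod.ext_iff.mp e).2
    show 0 ≤ CH (cd (b ω)) (Uni.dg X nu) T - CH (cd (b ω)) (Uni.dg X nu)
      (fun v => (Uni.dg X om v, T v))
    linarith
  have nG : ∀ ω, 0 < p ω → Gf (b ω) ≤ X * Real.log 2 := fun ω hω => by
    rw [hGf]
    exact Uni.dg_card (hcl ω hω) X (x := om) (fun v hv => hd.hom v (hcp ω hω v hv)) _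
  -- the good values
  obtain ⟨G, hG⟩ : ∃ G : β → Prop, G = fun z => F1 z ≤ ι₀ * X ∧ F2 z ≤ ι₀ * X * Real.log 2 ∧
    F3 z ≤ ι₀ * X ∧ F5 z ≤ ε₀ ∧ ca1 / 2 * X * Real.log 2 ≤ Gf z := ⟨_, rfl⟩
  have hXl : 0 < X * Real.log 2 := by positivity
  have hGmass : ca1 / 4 ≤ Pe p (fun ω => G (b ω)) := by
    have p1 : Pe p (fun ω => ι₀ * X < F1 (b ω)) ≤ ca1 / 64 := by
      refine (Uni.Pe_markov hp (fun ω => F1 (b ω)) n1 (by positivity)).trans ?_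
      rw [div_le_iff₀ (by positivity)]
      linarith
    have p2 : Pe p (fun ω => ι₀ * X * Real.log 2 < F2 (b ω)) ≤ ca1 / 64 := by
      refine (Uni.Pe_markov hp (fun ω => F2 (b ω)) n2 (by positivity)).trans ?_
      rw [div_le_iff₀ (by positivity)]
      linarith
    have p3 : Pe p (fun ω => ι₀ * X < F3 (b ω)) ≤ ca1 / 64 := by
      refine (Uni.Pe_markov hp (fun ω => F3 (b ω)) n3 (by positivity)).trans ?_
      rw [div_le_iff₀ (by positivity)]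
      linarith
    have p5 : Pe p (fun ω => ε₀ < F5 (b ω)) ≤ ca1 / 64 := by
      refine (Uni.Pe_markov hp (fun ω => F5 (b ω)) n5 (by positivity)).trans ?_
      rw [div_le_iff₀ (by positivity)]
      linarith
    have pG : ca1 / 2 ≤ Pe p (fun ω => ca1 / 2 * X * Real.log 2 ≤ Gf (b ω)) := by
      refine le_trans (le_of_eq ?_) (Uni.Pe_reverse hp (fun ω => Gf (b ω)) hXl nG mG
        (by positivity))
      field_simp
      ring
    have hcov : Pe p (fun ω => ca1 / 2 * X * Real.log 2 ≤ Gf (b ω)) ≤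
        Pe p (fun ω => G (b ω) ∨ (ι₀ * X < F1 (b ω) ∨ (ι₀ * X * Real.log 2 < F2 (b ω) ∨
          (ι₀ * X < F3 (b ω) ∨ ε₀ < F5 (b ω))))) := by
      refine Uni.Pe_le_of h0 fun ω _ hω => ?_
      by_cases c1 : ι₀ * X < F1 (b ω)
      · exact Or.inr (Or.inl c1)
      by_cases c2 : ι₀ * X * Real.log 2 < F2 (b ω)
      · exact Or.inr (Or.inr (Or.inl c2))
      by_cases c3 : ι₀ * X < F3 (b ω)
      · exact Or.inr (Or.inr (Or.inr (Or.inl c3)))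
      by_cases c5 : ε₀ < F5 (b ω)
      · exact Or.inr (Or.inr (Or.inr (Or.inr c5)))
      left
      rw [hG]
      exact ⟨not_lt.mp c1, not_lt.mp c2, not_lt.mp c3, not_lt.mp c5, hω⟩
    have k1 := Uni.Pe_or_le h0 (fun ω => G (b ω)) (fun ω => (ι₀ * X < F1 (b ω) ∨
      (ι₀ * X * Real.log 2 < F2 (b ω) ∨ (ι₀ * X < F3 (b ω) ∨ ε₀ < F5 (b ω)))))
    have k2 := Uni.Pe_or_le h0 (fun ω => ι₀ * X < F1 (b ω)) (fun ω =>
      (ι₀ * X * Real.log 2 < F2 (b ω) ∨ (ι₀ * X < F3 (b ω) ∨ ε₀ < F5 (b ω))))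
    have k3 := Uni.Pe_or_le h0 (fun ω => ι₀ * X * Real.log 2 < F2 (b ω)) (fun ω =>
      (ι₀ * X < F3 (b ω) ∨ ε₀ < F5 (b ω)))
    have k4 := Uni.Pe_or_le h0 (fun ω => ι₀ * X < F3 (b ω)) (fun ω => ε₀ < F5 (b ω))
    linarith
  -- the events
  obtain ⟨n, hn⟩ : ∃ n, n = X / h := ⟨_, rfl⟩
  have hex : ∀ z, G z → 0 < law p b z → ∃ (r : Fin n) (E : Ω → Prop),
      ϖ₀ ≤ Pe (Pool.Agent.H49.Ent.cond p b z) E ∧
      (1 - c) * h * Real.log 2 < CH (Pool.Agent.H49.Ent.cond (Pool.Agent.H49.Ent.cond p b z) E True)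
        (Uni.dg (((r : ℕ) + 1) * h) nu) (fun ω => (Uni.dg ((r : ℕ) * h) nu ω, T ω)) := by
    intro z hz hlz
    rw [hG] at hz
    obtain ⟨g1, g2, g3, g5, gG⟩ := hz
    rw [hF1, hcd] at g1
    rw [hF2, hcd] at g2
    rw [hF3, hcd] at g3
    rw [hF5, hcd] at g5
    rw [hGf, hcd] at gG
    have hq := Uni.isLaw_cond' h0 b hlz
    obtain ⟨j, hj, E, hE1, hE2⟩ := w_one hOC' (WData.cond hd hlz) hXX g1
      (by
        have : X * Real.log 2 - CH (Pool.Agent.H49.Ent.cond p b z) (Uni.dg X th) L ≤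
          ι₀ * X * Real.log 2 := g2
        linarith)
      (by
        have : j₀ * Real.log 2 - CH (Pool.Agent.H49.Ent.cond p b z) (Uni.dg j₀ th) L ≤ ε₀ := g5
        linarith)
      g3
      (by
        have k1 := gG.trans (Pool.KX.JBG.CH_le_H' hq.nonneg hq.sum_one (Uni.dg X om)
          (fun _ => ()))
        refine lt_of_lt_of_le ?_ k1
        have : 0 < ca1 * (X * Real.log 2) := mul_pos hca1p hXl
        linarith)
    rw [← hh] at hj hE2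
    have hjn : j < n := by
      rw [hn]
      exact (Nat.le_div_iff_mul_le hhpos).2 hj
    exact ⟨⟨j, hjn⟩, E, hE1, hE2⟩
  obtain ⟨r, A, hA1, hA2⟩ := Uni.union_event hp b G hϖ₀ (by positivity : 0 < ca1 / 4)
    ((1 - c) * h * Real.log 2) (fun (r : Fin n) => Uni.dg (((r : ℕ) + 1) * h) nu)
    (fun (r : Fin n) ω => (Uni.dg ((r : ℕ) * h) nu ω, T ω)) hGmass hex
  have hrX : ((r : ℕ) + 1) * h ≤ X := by
    have h1 : (r : ℕ) + 1 ≤ X / h := by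
      rw [← hn]
      exact r.2
    exact (Nat.le_div_iff_mul_le hhpos).1 h1
  have hnr : (0 : ℝ) < n := by
    have : 0 < n := lt_of_le_of_lt (Nat.zero_le _) r.2
    exact_mod_cast this
  have hn2 : (n : ℝ) ≤ 2 / κ := by
    have e1 : n * h ≤ X := by rw [hn]; exact Nat.div_mul_le_self X h
    have e2 : (n : ℝ) * h ≤ X := by exact_mod_cast e1
    rw [le_div_iff₀ hκ]
    have e3 : (n : ℝ) * (κ * X / 2) ≤ X := (mul_le_mul_of_nonneg_left hh2 hnr.le).trans e2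
    have e4 : (n : ℝ) * κ * X ≤ 2 * X := by linarith
    exact le_of_mul_le_mul_right e4 hXpos
  have hPeA : ϖ₀ * (ca1 / 4) * (κ / 2) ≤ Pe p A := by
    refine le_trans ?_ hA1
    rw [le_div_iff₀ hnr]
    have e1 : (n : ℝ) * κ ≤ 2 := by
      rw [le_div_iff₀ hκ] at hn2
      exact hn2
    have e2 : ϖ₀ * (ca1 / 4) * ((n : ℝ) * κ) ≤ ϖ₀ * (ca1 / 4) * 2 :=
      mul_le_mul_of_nonneg_left e1 (by positivity)
    linarith
  have hfin := h5 (r : ℕ) (by rw [← hh]; exact hrX) A hPeA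
  rw [← hh] at hfin
  have hqA : IsLaw (Pool.Agent.H49.Ent.cond p A True) :=
    isLaw_cond hp (lt_of_lt_of_le (by positivity) hPeA)
  have hsw : CH (Pool.Agent.H49.Ent.cond p A True) (Uni.dg (((r : ℕ) + 1) * h) nu)
      (fun ω => ((Uni.dg ((r : ℕ) * h) nu ω, T ω), b ω)) =
      CH (Pool.Agent.H49.Ent.cond p A True) (Uni.dg (((r : ℕ) + 1) * h) nu)
      (fun ω => (Uni.dg ((r : ℕ) * h) nu ω, (b ω, T ω))) := by
    refine CH_congr hqA.nonneg ?_ ?_ ?_ ?_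
    · intro ω ω' _ _ e
      exact (Prod.ext_iff.mp e).1
    · intro ω ω' _ _ e
      exact (Prod.ext_iff.mp e).1
    · intro ω ω' _ _ e
      have e1 := Prod.ext_iff.mp e
      have e2 := Prod.ext_iff.mp e1.1
      exact Prod.ext e2.1 (Prod.ext e1.2 e2.2)
    · intro ω ω' _ _ e
      have e1 := Prod.ext_iff.mp e
      have e2 := Prod.ext_iff.mp e1.2
      exact Prod.ext (Prod.ext e1.1 e2.2) e2.1
  linarith

end Pool.UE
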