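import Pool.Agent.H97.OC.OCD
import Pool.Agent.H21.UE.WBj

/-!
# Digits, events
-/

set_option autoImplicit false

namespace Pool.UE

open Finset Real
open Pool.Agent.H49.Ent Pool.Agent.H32.Dense Pool.STK Pool.KA Pool.K2S

variable {Ω Λ Θ β S T U V : Type} [Fintype Ω]

theorem log_two_pos : 0 < Real.log 2 := Real.log_pos (by norm_num)

theorem log_two_le : Real.log 2 ≤ 1 := by
  have := Real.log_two_lt_d9
  linarith

omit [Fintype Ω] in
theorem dg_div (x : Ω → ℝ) (r k : ℕ) (ω : Ω) : Uni.dg r x ω = Uni.dg (r + k) x ω / 2 ^ k :=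
  Sel.Nst.div (Sel.nst_dg x) r k ω

omit [Fintype Ω] in
theorem dg_eq_of {x : Ω → ℝ} {r s : ℕ} (h : r ≤ s) {ω ω' : Ω}
    (e : Uni.dg s x ω = Uni.dg s x ω') : Uni.dg r x ω = Uni.dg r x ω' := by
  obtain ⟨k, rfl⟩ := Nat.exists_eq_add_of_le h
  rw [dg_div x r k ω, dg_div x r k ω', e]

/-- One more digits. -/
theorem CH_dg_step {q : Ω → ℝ} (hq : IsLaw q) (x : Ω → ℝ) (i m : ℕ) (W : Ω → T) :
    CH q (Uni.dg (i + m) x) (fun ω => (Uni.dg i x ω, W ω)) ≤ m * Real.log 2 := by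
  refine (CH_le_card hq.nonneg hq.sum_one _ _
    (fun z => Finset.Ico (2 ^ m * z.1) (2 ^ m * z.1 + 2 ^ m)) ?_).trans ?_
  · intro ω hω
    have h1 := dg_div x i m ω
    have h2 : (0 : ℤ) < 2 ^ m := by positivity
    rw [Finset.mem_Ico]
    show 2 ^ m * Uni.dg i x ω ≤ _ ∧ _ < 2 ^ m * Uni.dg i x ω + 2 ^ m
    have h3 := Int.mul_ediv_add_emod (Uni.dg (i + m) x ω) (2 ^ m)
    have h4 := Int.emod_nonneg (Uni.dg (i + m) x ω) h2.ne'
    have h5 := Int.emod_lt_of_pos (Uni.dg (i + m) x ω) h2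
    rw [← h1] at h3
    constructor <;> omega
  · have e : ∀ ω : Ω, q ω * Real.log (((Finset.Ico (2 ^ m * Uni.dg i x ω)
        (2 ^ m * Uni.dg i x ω + 2 ^ m) : Finset ℤ).card : ℕ) : ℝ) = q ω * (m * Real.log 2) := by
      intro ω
      rw [Int.card_Ico]
      have : (2 ^ m * Uni.dg i x ω + 2 ^ m - 2 ^ m * Uni.dg i x ω).toNat = 2 ^ m := by
        have h6 : 2 ^ m * Uni.dg i x ω + 2 ^ m - 2 ^ m * Uni.dg i x ω = ((2 ^ m : ℕ) : ℤ) := by
          push_cast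
          ring
        rw [h6, Int.toNat_natCast]
      rw [this]
      push_cast
      rw [Real.log_pow]
    refine le_of_eq ?_
    show ∑ ω, q ω * _ = _
    rw [Finset.sum_congr rfl fun ω _ => e ω, ← Finset.sum_mul, hq.sum_one, one_mul]

/-- The chain rule for the digits. -/
theorem CH_dg_chain {q : Ω → ℝ} (hq : ∀ ω, 0 ≤ q ω) (x : Ω → ℝ) {i j : ℕ} (h : i ≤ j)
    (W : Ω → T) :
    CH q (Uni.dg j x) W = CH q (Uni.dg i x) W +
      CH q (Uni.dg j x) (fun ω => (Uni.dg i x ω, W ω)) := by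
  rw [← CH_chain hq]
  refine CH_congr hq ?_ ?_ ?_ ?_
  · intro ω ω' _ _ e
    have e1 : Uni.dg j x ω = Uni.dg j x ω' := (Prod.ext_iff.mp e).1
    exact Prod.ext e1 (dg_eq_of h e1)
  · intro ω ω' _ _ e
    exact (Prod.ext_iff.mp (Prod.ext_iff.mp e).1).1
  · exact fun _ _ _ _ e => e
  · exact fun _ _ _ _ e => e

/-- More digits. -/
theorem CH_dg_le {q : Ω → ℝ} (hq : IsLaw q) (x : Ω → ℝ) {i j : ℕ} (h : i ≤ j) (W : Ω → T) :
    CH q (Uni.dg j x) W ≤ CH q (Uni.dg i x) W + ((j : ℝ) - i) * Real.log 2 := by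
  rw [CH_dg_chain hq.nonneg x h W]
  obtain ⟨k, rfl⟩ := Nat.exists_eq_add_of_le h
  have := CH_dg_step hq x i k W
  push_cast
  linarith

theorem CH_dg_mono {q : Ω → ℝ} (hq : ∀ ω, 0 ≤ q ω) (x : Ω → ℝ) {i j : ℕ} (h : i ≤ j)
    (W : Ω → T) : CH q (Uni.dg i x) W ≤ CH q (Uni.dg j x) W := by
  rw [CH_dg_chain hq x h W]
  have := CH_nonneg hq (Uni.dg j x) (fun ω => (Uni.dg i x ω, W ω))
  linarith

/-! ### events -/

theorem Pe_mul_le_Ex {p : Ω → ℝ} (hp : ∀ ω, 0 ≤ p ω) (A : Ω → Prop) (F : Prop → ℝ)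
    (hF : ∀ ω, 0 < p ω → 0 ≤ F (A ω)) : Pe p A * F True ≤ Ex p (fun ω => F (A ω)) := by
  classical
  rw [Pe_eq, Finset.sum_mul]
  unfold Ex
  refine Finset.sum_le_sum fun ω _ => ?_
  rcases (hp ω).eq_or_lt with h | h
  · rw [← h]
    simp
  by_cases h1 : A ω
  · rw [if_pos h1]
    have : A ω = True := eq_true h1
    show p ω * F True ≤ p ω * F (A ω)
    rw [this]
  · rw [if_neg h1, zero_mul]
    exact mul_nonneg h.le (hF ω h)

/-- The event costs one bit. -/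
theorem CH_prop_le {p : Ω → ℝ} (hp : IsLaw p) (A : Ω → Prop) (Z : Ω → T) :
    CH p A Z ≤ Real.log 2 := by
  classical
  refine (CH_le_card hp.nonneg hp.sum_one A Z (fun _ => {True, False}) ?_).trans ?_
  · intro ω _
    by_cases h : A ω
    · rw [Finset.mem_insert]
      exact Or.inl (eq_true h)
    · rw [Finset.mem_insert, Finset.mem_singleton]
      exact Or.inr (eq_false h)
  · have h2 : (({True, False} : Finset Prop).card : ℝ) ≤ 2 := by
      exact_mod_cast Finset.card_le_two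
    have h3 : (0 : ℝ) < (({True, False} : Finset Prop).card : ℝ) := by
      have : 0 < ({True, False} : Finset Prop).card := Finset.card_pos.2 ⟨True, by simp⟩
      exact_mod_cast this
    have h4 := Real.log_le_log h3 h2
    calc Ex p (fun ω => Real.log ((({True, False} : Finset Prop).card : ℕ) : ℝ))
        ≤ ∑ ω, p ω * Real.log 2 :=
          Finset.sum_le_sum fun ω _ => mul_le_mul_of_nonneg_left h4 (hp.nonneg ω)
      _ = Real.log 2 := by rw [← Finset.sum_mul, hp.sum_one, one_mul]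

/-- Mutual information given an event. -/
theorem mi_event {p : Ω → ℝ} (hp : IsLaw p) (A : Ω → Prop) (X : Ω → S) (Y : Ω → T)
    (Z : Ω → U) :
    Pe p A * (CH (Pool.Agent.H49.Ent.cond p A True) X Z -
      CH (Pool.Agent.H49.Ent.cond p A True) X (fun ω => (Y ω, Z ω))) ≤
      CH p X Z - CH p X (fun ω => (Y ω, Z ω)) + Real.log 2 := by
  have h0 := hp.nonneg
  have h1 := Pe_mul_le_Ex h0 A (fun a => CH (Pool.Agent.H49.Ent.cond p A a) X Z -
    CH (Pool.Agent.H49.Ent.cond p A a) X (fun ω => (Y ω, Z ω))) (fun ω hω => by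
      have := CH_mono_cond (cond_nonneg h0 A (A ω)) (X := X) (W' := fun ω => (Y ω, Z ω))
        (W := Z) (fun _ _ _ _ e => (Prod.ext_iff.mp e).2)
      linarith)
  refine h1.trans ?_
  have h2 : Ex p (fun ω => CH (Pool.Agent.H49.Ent.cond p A (A ω)) X Z -
      CH (Pool.Agent.H49.Ent.cond p A (A ω)) X (fun ω => (Y ω, Z ω))) =
      CH p X (fun ω => (A ω, Z ω)) - CH p X (fun ω => (Y ω, (A ω, Z ω))) := by
    rw [Ex_sub, Uni.Ex_swap h0, Uni.Ex_swap' h0]
  rw [h2]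
  -- `I(X; Y | A, Z) ≤ I(X; Y | Z) + H(A)`
  have h3 : CH p X (fun ω => (A ω, Z ω)) ≤ CH p X Z :=
    CH_mono_cond h0 fun _ _ _ _ e => (Prod.ext_iff.mp e).2
  have h4 := CH_chain h0 X A (fun ω => (Y ω, Z ω))
  have h5 : CH p X (fun ω => (Y ω, Z ω)) ≤ CH p (fun ω => (X ω, A ω)) (fun ω => (Y ω, Z ω)) :=
    CH_mono_left h0 fun _ _ _ _ e => (Prod.ext_iff.mp (Prod.ext_iff.mp e).1).1
  have h6 := CH_prop_le hp A (fun ω => (Y ω, Z ω))
  have h7 : CH p X (fun ω => (A ω, (Y ω, Z ω))) = CH p X (fun ω => (Y ω, (A ω, Z ω))) := by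
    refine CH_congr h0 ?_ ?_ ?_ ?_
    · exact fun _ _ _ _ e => (Prod.ext_iff.mp e).1
    · exact fun _ _ _ _ e => (Prod.ext_iff.mp e).1
    · intro ω ω' _ _ e
      have e1 := Prod.ext_iff.mp e
      have e2 := Prod.ext_iff.mp e1.2
      exact Prod.ext e2.1 (Prod.ext e1.1 e2.2)
    · intro ω ω' _ _ e
      have e1 := Prod.ext_iff.mp e
      have e2 := Prod.ext_iff.mp e1.2
      exact Prod.ext e2.1 (Prod.ext e1.1 e2.2)
  linarith

/-- Deficits given an event. -/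
theorem def_event {p : Ω → ℝ} (hp : IsLaw p) (A : Ω → Prop) (X : Ω → S) (Z : Ω → U) {M : ℝ}
    (hM : ∀ q : Ω → ℝ, IsLaw q → (∀ ω, 0 < q ω → 0 < p ω) → CH q X Z ≤ M) :
    Pe p A * (M - CH (Pool.Agent.H49.Ent.cond p A True) X Z) ≤
      M - CH p X Z + Real.log 2 := by
  have h0 := hp.nonneg
  have h1 := Pe_mul_le_Ex h0 A (fun a => M - CH (Pool.Agent.H49.Ent.cond p A a) X Z)
    (fun ω hω => by
      have := hM (Pool.Agent.H49.Ent.cond p A (A ω)) (Uni.isLaw_cond' h0 A (law_pos h0 A hω))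
        (fun v hv => ((cond_pos_iff h0 A (A ω) v).1 hv).1)
      linarith)
  refine h1.trans ?_
  have h2 : Ex p (fun ω => M - CH (Pool.Agent.H49.Ent.cond p A (A ω)) X Z) =
      M - CH p X (fun ω => (A ω, Z ω)) := by
    rw [Ex_sub, Ex_const hp.sum_one, Uni.Ex_swap h0]
  rw [h2]
  have h4 := CH_chain h0 X A Z
  have h5 : CH p X Z ≤ CH p (fun ω => (X ω, A ω)) Z :=
    CH_mono_left h0 fun _ _ _ _ e => (Prod.ext_iff.mp (Prod.ext_iff.mp e).1).1
  have h6 := CH_prop_le hp A Z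
  linarith

end Pool.UE
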