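import Pool.Agent.H21.UE.Dg

/-!
# Lemma W for a family of contexts, without the condition on the first digits of the time

Zoom in the time: the digits `(i, i + j₀]` are nearly full for some `i` which is a small part of
`X`.
-/

set_option autoImplicit false

namespace Pool.UE

open Finset Real
open Pool.Agent.H49.Ent Pool.Agent.H32.Dense Pool.STK Pool.KA Pool.K2S

variable {Ω Λ Θ β S T U V : Type} [Fintype Ω]

/-- A block of digits with a small deficit. -/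
theorem exists_block {f : ℕ → ℝ} {u : ℝ} (N J : ℕ) (hN : 0 < N)
    {D : ℝ} (hD : N * J * u - (f (N * J) - f 0) ≤ D) :
    ∃ k < N, J * u - (f (k * J + J) - f (k * J)) ≤ D / N := by
  by_contra hcon
  push Not at hcon
  have hN' : (0 : ℝ) < N := by exact_mod_cast hN
  have h1 : ∑ k ∈ range N, (J * u - (f (k * J + J) - f (k * J))) =
      N * J * u - (f (N * J) - f 0) := by
    rw [Finset.sum_sub_distrib, Finset.sum_const, Finset.card_range, nsmul_eq_mul]
    have h2 := Finset.sum_range_sub (fun k => f (k * J)) N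
    have h3 : ∀ k, (k + 1) * J = k * J + J := fun k => by ring
    simp only [h3, Nat.zero_mul] at h2
    rw [h2]
    ring
  have h4 : ∑ k ∈ range N, D / N < ∑ k ∈ range N, (J * u - (f (k * J + J) - f (k * J))) :=
    Finset.sum_lt_sum_of_nonempty (Finset.nonempty_range_iff.2 hN.ne') fun k hk =>
      hcon k (Finset.mem_range.1 hk)
  rw [h1, Finset.sum_const, Finset.card_range, nsmul_eq_mul, mul_div_cancel₀ _ hN'.ne'] at h4
  linarith only [hD, h4]

/-- The zoomed time. -/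
theorem zoom_floor (x : ℝ) (i j : ℕ) :
    ⌊(2 : ℝ) ^ j * (2 ^ i * x - ⌊(2 : ℝ) ^ i * x⌋)⌋ =
      ⌊(2 : ℝ) ^ (i + j) * x⌋ - 2 ^ j * ⌊(2 : ℝ) ^ i * x⌋ := by
  have e : (2 : ℝ) ^ j * (2 ^ i * x - ⌊(2 : ℝ) ^ i * x⌋) =
      2 ^ (i + j) * x - ((2 ^ j * ⌊(2 : ℝ) ^ i * x⌋ : ℤ) : ℝ) := by
    push_cast
    rw [pow_add]
    ring
  rw [e, Int.floor_sub_intCast]

theorem zoom_alg {m t o s P F : ℝ} (hP : P ≠ 0) :
    m + t * o + s = m + F / P * o + (P * t - F) * (o / P) + s := by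
  field_simp
  ring

/-- Lemma W for a family of contexts. -/
theorem wb (hN1 : Pool.M5.N1Stmt) : ∀ c ca : ℝ, 0 < c → 0 < ca →
    ∃ (κ ϖ ι : ℝ) (X₀ : ℕ), 0 < κ ∧ κ ≤ 1 ∧ 0 < ϖ ∧ 0 < ι ∧
    ∀ (Ω β Λ Θ : Type) [Fintype Ω] (p : Ω → ℝ) (b : Ω → β) (L : Ω → Λ) (T : Ω → Θ)
      (om m0 th S nu : Ω → ℝ) (X : ℕ), WData p b L T om m0 th S nu → X₀ ≤ X →
      CH p T b - CH p T (fun ω => (L ω, b ω)) ≤ ι * X →
      (1 - ι) * X * Real.log 2 ≤ CH p (Uni.dg X th) (fun ω => (L ω, b ω)) →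
      CH p (Uni.dg X nu) (fun ω => (b ω, T ω)) -
        CH p (Uni.dg X nu) (fun ω => (Uni.dg X om ω, (b ω, T ω))) ≤ ι * X →
      ca * X * Real.log 2 ≤ CH p (Uni.dg X om) b →
      (∀ j : ℕ, (j + 1) * ⌊κ * X⌋₊ ≤ X → ∀ E : Ω → Prop, ϖ ≤ Pe p E →
        CH (Pool.Agent.H49.Ent.cond p E True) (Uni.dg ((j + 1) * ⌊κ * X⌋₊) nu)
          (fun ω => (Uni.dg (j * ⌊κ * X⌋₊) nu ω, (b ω, T ω))) ≤
          (1 - c) * ⌊κ * X⌋₊ * Real.log 2) →
      False := by
  classical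
  intro c ca hc hca
  obtain ⟨u, hu⟩ : ∃ u, u = Real.log 2 := ⟨_, rfl⟩
  have hu0 : 0 < u := by rw [hu]; exact log_two_pos
  have hu1 : u ≤ 1 := by rw [hu]; exact log_two_le
  obtain ⟨κ, ϖ, ι₁, ε₁, j₀, X₁, hκ, hκ1, hϖ, hι₁, hε₁, hW⟩ := wbj hN1 c (ca / 2) hc
    (by positivity)
  obtain ⟨J, hJ⟩ : ∃ J : ℕ, J = j₀ + 1 := ⟨_, rfl⟩
  have hJ1 : (1 : ℝ) ≤ J := by rw [hJ]; push_cast; linarith only [(Nat.cast_nonneg j₀ : (0 : ℝ) ≤ j₀)]
  obtain ⟨δ, hδ⟩ : ∃ δ, δ = min (min (ca / 8) (ι₁ / 4)) (1 / 2) := ⟨_, rfl⟩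
  have hδ0 : 0 < δ := by rw [hδ]; positivity
  have hδ1 : δ ≤ ca / 8 := by rw [hδ]; exact (min_le_left _ _).trans (min_le_left _ _)
  have hδ2 : δ ≤ ι₁ / 4 := by rw [hδ]; exact (min_le_left _ _).trans (min_le_right _ _)
  have hδ3 : δ ≤ 1 / 2 := by rw [hδ]; exact min_le_right _ _
  obtain ⟨X₂, hX₂⟩ := exists_nat_ge (2 * J / δ)
  refine ⟨κ, ϖ, min (ι₁ / 2) (ε₁ * δ / (4 * J)), max X₁ (X₂ + 1), hκ, hκ1, hϖ,
    by positivity, ?_⟩
  intro Ω β Λ Θ _ p b L T om m0 th S nu X hd hX h1 h1' h2 h4 h5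
  obtain ⟨ι, hι⟩ : ∃ ι, ι = min (ι₁ / 2) (ε₁ * δ / (4 * J)) := ⟨_, rfl⟩
  rw [← hι] at h1 h1' h2
  have hι1 : ι ≤ ι₁ / 2 := by rw [hι]; exact min_le_left _ _
  have hι2 : ι ≤ ε₁ * δ / (4 * J) := by rw [hι]; exact min_le_right _ _
  have hXX : X₁ ≤ X := (le_max_left _ _).trans hX
  have hX2 : X₂ + 1 ≤ X := (le_max_right _ _).trans hX
  have hXr : (2 * J / δ : ℝ) ≤ X := by
    have : ((X₂ + 1 : ℕ) : ℝ) ≤ X := by exact_mod_cast hX2
    push_cast at this
    linarith only [hδ0, hδ3, hX₂, this]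
  have hX0 : (0 : ℝ) < X := by
    have : ((X₂ + 1 : ℕ) : ℝ) ≤ X := by exact_mod_cast hX2
    push_cast at this
    linarith only [hδ0, hδ3, this, (Nat.cast_nonneg X₂ : (0 : ℝ) ≤ X₂)]
  rw [div_le_iff₀ hδ0] at hXr
  have hp := hd.law
  have h0 := hp.nonneg
  -- the block
  obtain ⟨N, hN⟩ : ∃ N : ℕ, N = ⌊δ * X / J⌋₊ := ⟨_, rfl⟩
  have hN1' : (N : ℝ) ≤ δ * X / J := by rw [hN]; exact Nat.floor_le (by positivity)
  have hN2 : δ * X / J < N + 1 := by rw [hN]; exact Nat.lt_floor_add_one _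
  rw [le_div_iff₀ (by linarith only [hJ1, hδ0, hδ3])] at hN1'
  rw [div_lt_iff₀ (by linarith only [hJ1, hδ0, hδ3])] at hN2
  have hNpos : 0 < N := by
    rcases Nat.eq_zero_or_pos N with h | h
    · rw [h] at hN2
      push_cast at hN2
      nlinarith only [hJ1, hδ0, hδ3, hXr, hN2]
    · exact h
  have hN1r : (1 : ℝ) ≤ N := by exact_mod_cast hNpos
  have hNX : N * J ≤ X := by
    have : ((N * J : ℕ) : ℝ) ≤ X := by
      push_cast
      nlinarith only [hJ1, hδ0, hδ3, hXr, hN1']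
    exact_mod_cast this
  obtain ⟨Z, hZ⟩ : ∃ Z : Ω → Λ × β, Z = fun ω => (L ω, b ω) := ⟨_, rfl⟩
  rw [← hZ] at h1 h1'
  have hf0 : ∀ j, 0 ≤ CH p (Uni.dg j th) Z := fun j => CH_nonneg h0 _ _
  obtain ⟨k, hkN, hk⟩ := exists_block (f := fun j => CH p (Uni.dg j th) Z) (u := u) N J hNpos
    (D := ι * X * u) (by
      have a1 := CH_dg_le hp th hNX Z
      have a2 := Uni.dg_card hp 0 (x := th) hd.hth Z
      rw [← hu] at a1
      push_cast at a1 a2
      simp only [zero_mul] at a2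
      have a3 := hf0 0
      rw [← hu] at h1'
      linarith only [h1', a1, a2])
  obtain ⟨i, hi⟩ : ∃ i, i = k * J := ⟨_, rfl⟩
  rw [← hi] at hk
  have hiN : i + J ≤ N * J := by
    rw [hi]
    calc k * J + J = (k + 1) * J := by ring
      _ ≤ N * J := Nat.mul_le_mul_right _ hkN
  have hiX : i ≤ X := by omega
  have hir : (i : ℝ) ≤ δ * X := by
    have : ((i + J : ℕ) : ℝ) ≤ ((N * J : ℕ) : ℝ) := by exact_mod_cast hiN
    push_cast at this
    linarith only [hJ1, hδ0, hδ3, hN1', this]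
  have hi0 : (0 : ℝ) ≤ i := Nat.cast_nonneg i
  have hkε : J * u - (CH p (Uni.dg (i + J) th) Z - CH p (Uni.dg i th) Z) ≤ ε₁ := by
    refine hk.trans ?_
    rw [div_le_iff₀ (by linarith only [hδ0, hδ3, hN1r])]
    have b1 : ι * (4 * J) ≤ ε₁ * δ := by
      rw [le_div_iff₀ (by linarith only [hJ1, hδ0, hδ3])] at hι2
      exact hι2
    have b2 : δ * X ≤ 2 * (N * J) := by nlinarith only [hXr, hN2]
    have b3 : ι * X * (4 * J) ≤ ε₁ * (δ * X) := by nlinarith only [b1]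
    have b4 : ι * X * (4 * J) ≤ ε₁ * (2 * (N * J)) :=
      b3.trans (mul_le_mul_of_nonneg_left b2 hε₁.le)
    have b5 : ι * X * 4 ≤ ε₁ * (2 * N) := by
      have : ι * X * 4 * J ≤ ε₁ * (2 * N) * J := by linarith only [b4]
      exact le_of_mul_le_mul_right this (by linarith only [hJ1, hδ0, hδ3])
    have b6 : 0 ≤ ε₁ * N := by positivity
    rcases le_or_gt 0 (ι * X) with c1 | c1
    · have : ι * X * u ≤ ι * X * 1 := mul_le_mul_of_nonneg_left hu1 c1
      linarith only [b5, b6, this]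
    · have : ι * X * u ≤ 0 := mul_nonpos_of_nonpos_of_nonneg c1.le hu0.le
      linarith only [b6, this]
  -- the zoomed data
  obtain ⟨b', hb'⟩ : ∃ b' : Ω → β × ℤ, b' = fun ω => (b ω, Uni.dg i th ω) := ⟨_, rfl⟩
  obtain ⟨th', hth'⟩ : ∃ th' : Ω → ℝ, th' = fun ω => 2 ^ i * th ω - ⌊(2 : ℝ) ^ i * th ω⌋ :=
    ⟨_, rfl⟩
  obtain ⟨om', hom'⟩ : ∃ om' : Ω → ℝ, om' = fun ω => om ω / 2 ^ i := ⟨_, rfl⟩
  obtain ⟨m0', hm0'⟩ : ∃ m0' : Ω → ℝ,
    m0' = fun ω => m0 ω + (⌊(2 : ℝ) ^ i * th ω⌋ : ℝ) / 2 ^ i * om ω := ⟨_, rfl⟩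
  have h2i : (0 : ℝ) < 2 ^ i := by positivity
  have hdet : ∀ {τ σ : Type} {A : Ω → τ} {x : Ω → σ}, Det p (fun ω => (b ω, A ω)) x →
      Det p (fun ω => (b' ω, A ω)) x := by
    intro τ σ A x hx ω ω' a a' e
    rw [hb'] at e
    have e1 := Prod.ext_iff.mp e
    exact hx ω ω' a a' (Prod.ext (Prod.ext_iff.mp e1.1).1 e1.2)
  have hb'T : Det p (fun ω => (b ω, T ω)) b' := by
    intro ω ω' a a' e
    have e1 := hd.dth ω ω' a a' e
    rw [hb']
    exact Prod.ext (Prod.ext_iff.mp e).1 (by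
      show ⌊(2 : ℝ) ^ i * th ω⌋ = ⌊(2 : ℝ) ^ i * th ω'⌋
      rw [e1])
  have hbb' : Det p b' b := fun ω ω' _ _ e => by
    rw [hb'] at e
    exact (Prod.ext_iff.mp e).1
  have hd' : WData p b' L T om' m0' th' S nu := by
    refine ⟨hp, ?_, ?_, ?_, hdet hd.dS, ?_, ?_, ?_⟩
    · intro ω ω' a a' e
      rw [hom']
      show om ω / 2 ^ i = om ω' / 2 ^ i
      rw [hdet hd.dom ω ω' a a' e]
    · intro ω ω' a a' e
      have e2 := hdet hd.dom ω ω' a a' e
      have e3 := hdet hd.dm0 ω ω' a a' e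
      have e4 : (⌊(2 : ℝ) ^ i * th ω⌋ : ℤ) = ⌊(2 : ℝ) ^ i * th ω'⌋ := by
        have e5 := (Prod.ext_iff.mp e).1
        rw [hb'] at e5
        exact (Prod.ext_iff.mp e5).2
      rw [hm0']
      show m0 ω + (⌊(2 : ℝ) ^ i * th ω⌋ : ℝ) / 2 ^ i * om ω =
        m0 ω' + (⌊(2 : ℝ) ^ i * th ω'⌋ : ℝ) / 2 ^ i * om ω'
      rw [e2, e3, e4]
    · intro ω ω' a a' e
      have e2 := hdet hd.dth ω ω' a a' e
      rw [hth']
      show 2 ^ i * th ω - (⌊(2 : ℝ) ^ i * th ω⌋ : ℝ) = 2 ^ i * th ω' - (⌊(2 : ℝ) ^ i * th ω'⌋ : ℝ)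
      rw [e2]
    · intro ω hω
      obtain ⟨a, b⟩ := hd.hom ω hω
      rw [hom']
      refine ⟨div_nonneg a h2i.le, ?_⟩
      show om ω / 2 ^ i < 1
      rw [div_lt_one h2i]
      have : (1 : ℝ) ≤ 2 ^ i := one_le_pow₀ (by norm_num)
      linarith only [b, this]
    · intro ω hω
      rw [hth']
      have f1 := Int.floor_le ((2 : ℝ) ^ i * th ω)
      have f2 := Int.lt_floor_add_one ((2 : ℝ) ^ i * th ω)
      constructor
      · show 0 ≤ 2 ^ i * th ω - (⌊(2 : ℝ) ^ i * th ω⌋ : ℝ)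
        linarith only [f1]
      · show 2 ^ i * th ω - (⌊(2 : ℝ) ^ i * th ω⌋ : ℝ) < 1
        linarith only [f2]
    · intro ω hω
      rw [hd.hnu ω hω, hom', hm0', hth']
      exact zoom_alg h2i.ne'
  -- the entropies of the zoomed time
  have hthz : ∀ j, CH p (Uni.dg j th') (fun ω => (L ω, b' ω)) =
      CH p (Uni.dg (i + j) th) Z - CH p (Uni.dg i th) Z := by
    intro j
    have a1 := CH_dg_chain h0 th (Nat.le_add_right i j) Z
    have a2 : CH p (Uni.dg j th') (fun ω => (L ω, b' ω)) =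
        CH p (Uni.dg (i + j) th) (fun ω => (Uni.dg i th ω, Z ω)) := by
      have key : ∀ ω, Uni.dg j th' ω = Uni.dg (i + j) th ω - 2 ^ j * Uni.dg i th ω := fun ω => by
        rw [hth']
        exact zoom_floor (th ω) i j
      refine CH_congr h0 ?_ ?_ ?_ ?_
      · intro ω ω' _ _ e
        have e1 := Prod.ext_iff.mp e
        have e2 : Uni.dg j th' ω = Uni.dg j th' ω' := e1.1
        have e3 := (Prod.ext_iff.mp e1.2).2
        rw [hb'] at e3
        have e4 : Uni.dg i th ω = Uni.dg i th ω' := (Prod.ext_iff.mp e3).2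
        rw [key ω, key ω', e4] at e2
        omega
      · intro ω ω' _ _ e
        have e1 := Prod.ext_iff.mp e
        have e2 : Uni.dg (i + j) th ω = Uni.dg (i + j) th ω' := e1.1
        have e3 : Uni.dg i th ω = Uni.dg i th ω' := (Prod.ext_iff.mp e1.2).1
        rw [key ω, key ω', e2, e3]
      · intro ω ω' _ _ e
        have e1 := Prod.ext_iff.mp e
        have e3 := e1.2
        rw [hb'] at e3
        have e4 := Prod.ext_iff.mp e3
        rw [hZ]
        exact Prod.ext e4.2 (Prod.ext e1.1 e4.1)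
      · intro ω ω' _ _ e
        have e1 := Prod.ext_iff.mp e
        have e3 := e1.2
        rw [hZ] at e3
        have e4 := Prod.ext_iff.mp e3
        rw [hb']
        exact Prod.ext e4.1 (Prod.ext e4.2 e1.1)
    rw [a2]
    linarith only [a1]
  have hthi : CH p (Uni.dg i th) Z ≤ i * u := by
    rw [hu]
    exact Uni.dg_card hp i (x := th) hd.hth Z
  refine hW Ω (β × ℤ) Λ Θ p b' L T om' m0' th' S nu X hd' hXX ?_ ?_ ?_ ?_ ?_ ?_
  · -- the independence of the line and the time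
    unfold Pool.KVA.MI
    have a1 := CH_chain h0 T L b'
    rw [a1]
    have a2 : CH p T b - CH p T Z = CH p T b - CH p T (fun ω => (L ω, b ω)) := by rw [hZ]
    -- `T` determines the digits
    have a3 := CH_chain h0 T (Uni.dg i th) b
    have a4 := CH_chain h0 T (Uni.dg i th) Z
    have a5 : CH p (fun ω => (T ω, Uni.dg i th ω)) b = CH p T b := by
      refine CH_congr h0 ?_ ?_ (fun _ _ _ _ e => e) (fun _ _ _ _ e => e)
      · exact fun _ _ _ _ e => (Prod.ext_iff.mp (Prod.ext_iff.mp e).1).1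
      · intro ω ω' a a' e
        have e1 := Prod.ext_iff.mp e
        have e2 := hb'T ω ω' a a' (Prod.ext e1.2 e1.1)
        rw [hb'] at e2
        exact Prod.ext e1.1 (Prod.ext_iff.mp e2).2
    have a6 : CH p (fun ω => (T ω, Uni.dg i th ω)) Z = CH p T Z := by
      refine CH_congr h0 ?_ ?_ (fun _ _ _ _ e => e) (fun _ _ _ _ e => e)
      · exact fun _ _ _ _ e => (Prod.ext_iff.mp (Prod.ext_iff.mp e).1).1
      · intro ω ω' a a' e
        have e1 := Prod.ext_iff.mp e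
        have e3 := e1.2
        rw [hZ] at e3
        have e2 := hb'T ω ω' a a' (Prod.ext (Prod.ext_iff.mp e3).2 e1.1)
        rw [hb'] at e2
        exact Prod.ext e1.1 (Prod.ext_iff.mp e2).2
    have a7 : CH p T (fun ω => (Uni.dg i th ω, b ω)) = CH p T b' := by
      refine CH_congr h0 ?_ ?_ ?_ ?_
      · exact fun _ _ _ _ e => (Prod.ext_iff.mp e).1
      · exact fun _ _ _ _ e => (Prod.ext_iff.mp e).1
      · intro ω ω' _ _ e
        have e1 := Prod.ext_iff.mp e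
        rw [hb']
        exact Prod.ext e1.2 e1.1
      · intro ω ω' _ _ e
        rw [hb'] at e
        have e1 := Prod.ext_iff.mp e
        exact Prod.ext e1.2 e1.1
    have a8 : CH p T (fun ω => (Uni.dg i th ω, Z ω)) = CH p T (fun ω => (L ω, b' ω)) := by
      refine CH_congr h0 ?_ ?_ ?_ ?_
      · exact fun _ _ _ _ e => (Prod.ext_iff.mp e).1
      · exact fun _ _ _ _ e => (Prod.ext_iff.mp e).1
      · intro ω ω' _ _ e
        have e1 := Prod.ext_iff.mp e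
        have e3 := e1.2
        rw [hZ] at e3
        have e4 := Prod.ext_iff.mp e3
        rw [hb']
        exact Prod.ext e4.1 (Prod.ext e4.2 e1.1)
      · intro ω ω' _ _ e
        have e1 := Prod.ext_iff.mp e
        have e3 := e1.2
        rw [hb'] at e3
        have e4 := Prod.ext_iff.mp e3
        rw [hZ]
        exact Prod.ext e4.2 (Prod.ext e1.1 e4.1)
    have a9 : CH p (Uni.dg i th) Z ≤ CH p (Uni.dg i th) b := by
      refine CH_mono_cond h0 fun ω ω' _ _ e => ?_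
      rw [hZ] at e
      exact (Prod.ext_iff.mp e).2
    have a10 : ι * X ≤ ι₁ * X := mul_le_mul_of_nonneg_right (by linarith only [hδ0, hδ2, hι1]) hX0.le
    rw [a5, a7] at a3
    rw [a6, a8] at a4
    linarith only [h1, a3, a4, a9, a10]
  · rw [hthz]
    have a1 : CH p (Uni.dg X th) Z ≤ CH p (Uni.dg (i + X) th) Z :=
      CH_dg_mono h0 th (Nat.le_add_left X i) Z
    rw [← hu] at h1' ⊢
    have a2 : (i : ℝ) * u ≤ δ * X * u := mul_le_mul_of_nonneg_right hir hu0.le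
    have a3 : ι * (X * u) ≤ ι₁ / 2 * (X * u) := mul_le_mul_of_nonneg_right hι1 (by positivity)
    have a4 : δ * (X * u) ≤ ι₁ / 4 * (X * u) := mul_le_mul_of_nonneg_right hδ2 (by positivity)
    have a5 : 0 < ι₁ * (X * u) := by positivity
    linarith only [h1', hthi, a1, a2, a3, a4, a5]
  · rw [hthz]
    have a1 : i + j₀ ≤ i + J := by omega
    have a2 := CH_dg_le hp th a1 Z
    rw [← hu] at a2 ⊢
    rw [hJ] at a2 hkε
    push_cast at a2 hkε
    have : i + j₀ + 1 = i + (j₀ + 1) := by omega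
    linarith only [a2, hkε]
  · -- the velocity
    have a1 : CH p (Uni.dg X nu) (fun ω => (b' ω, T ω)) ≤
        CH p (Uni.dg X nu) (fun ω => (b ω, T ω)) := CH_mono_cond h0 fun ω ω' a a' e =>
      Prod.ext (hbb' ω ω' a a' (Prod.ext_iff.mp e).1) (Prod.ext_iff.mp e).2
    have a2 : CH p (Uni.dg X nu) (fun ω => (Uni.dg X om ω, (b ω, T ω))) ≤
        CH p (Uni.dg X nu) (fun ω => (Uni.dg X om' ω, (b' ω, T ω))) := by
      refine CH_mono_cond h0 fun ω ω' a a' e => ?_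
      have e1 := Prod.ext_iff.mp e
      have e2 : Uni.dg X om ω = Uni.dg X om ω' := e1.1
      refine Prod.ext ?_ (Prod.ext (hb'T ω ω' a a' e1.2) (Prod.ext_iff.mp e1.2).2)
      have e3 : ∀ ω, Uni.dg X om' ω = Uni.dg (X - i) om ω := by
        intro ω
        rw [hom']
        show ⌊(2 : ℝ) ^ X * (om ω / 2 ^ i)⌋ = ⌊(2 : ℝ) ^ (X - i) * om ω⌋
        congr 1
        have : (2 : ℝ) ^ X = 2 ^ (X - i) * 2 ^ i := by
          rw [← pow_add, Nat.sub_add_cancel hiX]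
        rw [this]
        field_simp
      show Uni.dg X om' ω = Uni.dg X om' ω'
      rw [e3, e3]
      exact dg_eq_of (Nat.sub_le X i) e2
    have a10 : ι * X ≤ ι₁ * X := mul_le_mul_of_nonneg_right (by linarith only [hδ0, hδ2, hι1]) hX0.le
    linarith only [h2, a1, a2, a10]
  · have e3 : Uni.dg X om' = Uni.dg (X - i) om := by
      funext ω
      rw [hom']
      show ⌊(2 : ℝ) ^ X * (om ω / 2 ^ i)⌋ = ⌊(2 : ℝ) ^ (X - i) * om ω⌋
      congr 1
      have : (2 : ℝ) ^ X = 2 ^ (X - i) * 2 ^ i := by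
        rw [← pow_add, Nat.sub_add_cancel hiX]
      rw [this]
      field_simp
    rw [e3]
    have a1 := CH_dg_le hp om (Nat.sub_le X i) b'
    rw [Nat.cast_sub hiX] at a1
    have a2 := CH_le_add h0 (Uni.dg X om) (Uni.dg i th) b
    have a3 := Uni.dg_card hp i (x := th) hd.hth b
    have a4 : CH p (Uni.dg X om) (fun ω => (Uni.dg i th ω, b ω)) = CH p (Uni.dg X om) b' := by
      refine CH_congr h0 ?_ ?_ ?_ ?_
      · exact fun _ _ _ _ e => (Prod.ext_iff.mp e).1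
      · exact fun _ _ _ _ e => (Prod.ext_iff.mp e).1
      · intro ω ω' _ _ e
        have e1 := Prod.ext_iff.mp e
        rw [hb']
        exact Prod.ext e1.2 e1.1
      · intro ω ω' _ _ e
        rw [hb'] at e
        have e1 := Prod.ext_iff.mp e
        exact Prod.ext e1.2 e1.1
    rw [a4] at a2
    rw [← hu] at a1 a3 h4 ⊢
    have a5 : (i : ℝ) * u ≤ δ * X * u := mul_le_mul_of_nonneg_right hir hu0.le
    have a6 : δ * (X * u) ≤ ca / 8 * (X * u) := mul_le_mul_of_nonneg_right hδ1 (by positivity)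
    have a7 : 0 < ca * (X * u) := by positivity
    linarith only [h4, a1, a2, a3, a5, a6, a7]
  · intro j hj E hE
    refine le_trans (le_of_eq ?_) (h5 j hj E hE)
    have hq0 : ∀ ω, 0 ≤ Pool.Agent.H49.Ent.cond p E True ω := cond_nonneg h0 E True
    refine CH_congr hq0 ?_ ?_ ?_ ?_
    · exact fun _ _ _ _ e => (Prod.ext_iff.mp e).1
    · exact fun _ _ _ _ e => (Prod.ext_iff.mp e).1
    · intro ω ω' a a' e
      have e1 := Prod.ext_iff.mp e
      have e2 := Prod.ext_iff.mp e1.2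
      exact Prod.ext e1.1 (Prod.ext (hbb' ω ω' ((cond_pos_iff h0 E True ω).1 a).1
        ((cond_pos_iff h0 E True ω').1 a').1 e2.1) e2.2)
    · intro ω ω' a a' e
      have e1 := Prod.ext_iff.mp e
      have e2 := Prod.ext_iff.mp e1.2
      exact Prod.ext e1.1 (Prod.ext (hb'T ω ω' ((cond_pos_iff h0 E True ω).1 a).1
        ((cond_pos_iff h0 E True ω').1 a').1 e1.2) e2.2)

end Pool.UE
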