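import Pool.Agent.H21.UE.WD

/-!
# Lemma W in density form, velocities in `[-2 ^ A, 2 ^ A]`
-/

set_option autoImplicit false

namespace Pool.UE

open Finset Real
open Pool.Agent.H49.Ent Pool.Agent.H32.Dense Pool.STK Pool.KA Pool.K2S

/-- The data of lemma W with `|om| ≤ 2 ^ A`. -/
structure WDataA {Ω Λ Θ β : Type} [Fintype Ω] (A : ℕ) (p : Ω → ℝ) (b : Ω → β) (L : Ω → Λ)
    (T : Ω → Θ) (om m0 th S nu : Ω → ℝ) : Prop where
  law : IsLaw p
  dom : Det p (fun ω => (b ω, L ω)) om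
  dm0 : Det p (fun ω => (b ω, L ω)) m0
  dth : Det p (fun ω => (b ω, T ω)) th
  dS : Det p (fun ω => (b ω, T ω)) S
  hom : ∀ ω, 0 < p ω → |om ω| ≤ 2 ^ A
  hth : ∀ ω, 0 < p ω → 0 ≤ th ω ∧ th ω < 1
  hnu : ∀ ω, 0 < p ω → nu ω = m0 ω + th ω * om ω + S ω

/-- **(WDA)** Lemma W in density form, `|om| ≤ 2 ^ A`. -/
def WDAStmt : Prop :=
  ∀ (A : ℕ) (ε ca : ℝ), 0 < ε → 0 < ca → ∃ (η ϖ ι : ℝ) (n₀ : ℕ), 0 < η ∧ 0 < ϖ ∧ 0 < ι ∧
    ∀ (Ω β Λ Θ : Type) [Fintype Ω] (p : Ω → ℝ) (b : Ω → β) (L : Ω → Λ) (T : Ω → Θ)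
      (om m0 th S nu : Ω → ℝ) (X : ℕ), WDataA A p b L T om m0 th S nu → n₀ ≤ X →
      Pool.KVA.MI p T L b ≤ ι * X →
      (1 - ι) * X * Real.log 2 ≤ CH p (Uni.dg X th) (fun ω => (L ω, b ω)) →
      CH p (Uni.dg X nu) (fun ω => (b ω, T ω)) -
        CH p (Uni.dg X nu) (fun ω => (Uni.dg X om ω, (b ω, T ω))) ≤ ι * X →
      (∀ r X' : ℕ, η * X ≤ X' → r + X' ≤ X → ∀ A : Ω → Prop, ϖ ≤ Pe p A →
        ca * X' * Real.log 2 ≤ CH (Pool.Agent.H49.Ent.cond p A True) (Uni.dg (r + X') om)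
          (fun ω => (Uni.dg r om ω, (Uni.dg r m0 ω, b ω)))) →
      (1 - ε) * X * Real.log 2 ≤ CH p (Uni.dg X nu) (fun ω => (b ω, T ω))

variable {Ω Λ Θ β S T U V : Type} [Fintype Ω]

/-- Mutual information of coarser variables. -/
theorem indep_mono {p : Ω → ℝ} (hp : ∀ ω, 0 ≤ p ω) {V : Ω → S} {V' : Ω → T} {O : Ω → U}
    {O' : Ω → Λ} {c : Ω → Θ} (hV : Det p V' V) (hO : Det p O' O) :
    CH p V c - CH p V (fun ω => (O ω, c ω)) ≤ CH p V' c - CH p V' (fun ω => (O' ω, c ω)) := by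
  have b1 := CH_chain hp V O c
  have b2 := CH_chain hp O V c
  have b3 : CH p (fun ω => (V ω, O ω)) c = CH p (fun ω => (O ω, V ω)) c := by
    refine CH_congr hp ?_ ?_ (fun _ _ _ _ e => e) (fun _ _ _ _ e => e)
    · intro ω ω' _ _ e
      have e1 := Prod.ext_iff.mp (Prod.ext_iff.mp e).1
      exact Prod.ext e1.2 e1.1
    · intro ω ω' _ _ e
      have e1 := Prod.ext_iff.mp (Prod.ext_iff.mp e).1
      exact Prod.ext e1.2 e1.1
  have b4 := CH_chain hp V' O c
  have b5 := CH_chain hp O V' c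
  have b6 : CH p (fun ω => (V' ω, O ω)) c = CH p (fun ω => (O ω, V' ω)) c := by
    refine CH_congr hp ?_ ?_ (fun _ _ _ _ e => e) (fun _ _ _ _ e => e)
    · intro ω ω' _ _ e
      have e1 := Prod.ext_iff.mp (Prod.ext_iff.mp e).1
      exact Prod.ext e1.2 e1.1
    · intro ω ω' _ _ e
      have e1 := Prod.ext_iff.mp (Prod.ext_iff.mp e).1
      exact Prod.ext e1.2 e1.1
  have b7 : CH p O (fun ω => (V' ω, c ω)) ≤ CH p O (fun ω => (V ω, c ω)) :=
    CH_mono_cond hp fun ω ω' a b e => Prod.ext (hV ω ω' a b (Prod.ext_iff.mp e).1)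
      (Prod.ext_iff.mp e).2
  have b8 : CH p V' (fun ω => (O' ω, c ω)) ≤ CH p V' (fun ω => (O ω, c ω)) :=
    CH_mono_cond hp fun ω ω' a b e => Prod.ext (hO ω ω' a b (Prod.ext_iff.mp e).1)
      (Prod.ext_iff.mp e).2
  linarith

omit [Fintype Ω] in
theorem dg_shift (x : Ω → ℝ) {a j : ℕ} (h : a ≤ j) :
    Uni.dg j (fun ω => x ω / 2 ^ a) = Uni.dg (j - a) x := by
  funext ω
  show ⌊(2 : ℝ) ^ j * (x ω / 2 ^ a)⌋ = ⌊(2 : ℝ) ^ (j - a) * x ω⌋
  congr 1
  have : (2 : ℝ) ^ j = 2 ^ (j - a) * 2 ^ a := by rw [← pow_add, Nat.sub_add_cancel h]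
  rw [this]
  field_simp

omit [Fintype Ω] in
/-- The digits after the shift by one half. -/
theorem dg_half (x : Ω → ℝ) {a j : ℕ} (h : a ≤ j) (ha : 1 ≤ a) (ω : Ω) :
    Uni.dg j (fun ω => x ω / 2 ^ a + 1 / 2) ω = Uni.dg (j - a) x ω + 2 ^ (j - 1) := by
  show ⌊(2 : ℝ) ^ j * (x ω / 2 ^ a + 1 / 2)⌋ = ⌊(2 : ℝ) ^ (j - a) * x ω⌋ + 2 ^ (j - 1)
  have h1 : (2 : ℝ) ^ j = 2 ^ (j - a) * 2 ^ a := by rw [← pow_add, Nat.sub_add_cancel h]
  have h2 : (2 : ℝ) ^ j = 2 ^ (j - 1) * 2 := by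
    rw [← pow_succ]
    congr 1
    omega
  have h3 : (2 : ℝ) ^ j * (x ω / 2 ^ a + 1 / 2) =
      2 ^ (j - a) * x ω + ((2 ^ (j - 1) : ℤ) : ℝ) := by
    have e1 : (2 : ℝ) ^ j * (x ω / 2 ^ a) = 2 ^ (j - a) * x ω := by
      rw [h1]
      field_simp
    have e2 : (2 : ℝ) ^ j * (1 / 2) = 2 ^ (j - 1) := by
      rw [h2]
      ring
    rw [mul_add, e1, e2]
    push_cast
    rfl
  rw [h3, Int.floor_add_intCast]

omit [Fintype Ω] in
/-- Digits of the scaled variables are functions of the integer parts for few digits. -/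
theorem dg_low (x : Ω → ℝ) {a r : ℕ} (h : r ≤ a) {ω ω' : Ω}
    (e : Uni.dg 0 x ω = Uni.dg 0 x ω') :
    Uni.dg r (fun ω => x ω / 2 ^ a) ω = Uni.dg r (fun ω => x ω / 2 ^ a) ω' := by
  have h1 : Uni.dg a (fun ω => x ω / 2 ^ a) ω = Uni.dg a (fun ω => x ω / 2 ^ a) ω' := by
    rw [dg_shift x le_rfl, Nat.sub_self]
    exact e
  exact dg_eq_of h h1

omit [Fintype Ω] in
theorem dg_low_half (x : Ω → ℝ) {a r : ℕ} (h : r ≤ a) (ha : 1 ≤ a) {ω ω' : Ω}
    (e : Uni.dg 0 x ω = Uni.dg 0 x ω') :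
    Uni.dg r (fun ω => x ω / 2 ^ a + 1 / 2) ω = Uni.dg r (fun ω => x ω / 2 ^ a + 1 / 2) ω' := by
  have h1 : Uni.dg a (fun ω => x ω / 2 ^ a + 1 / 2) ω =
      Uni.dg a (fun ω => x ω / 2 ^ a + 1 / 2) ω' := by
    rw [dg_half x le_rfl ha, dg_half x le_rfl ha, Nat.sub_self, e]
  exact dg_eq_of h h1

/-- **Lemma W in density form, `|om| ≤ 2 ^ A`.** -/
theorem wda_of (hWD : WDStmt) : WDAStmt := by
  classical
  intro A ε ca hε hca
  obtain ⟨η, ϖ, ι, n₀, hη, hϖ, hι, hW⟩ := hWD ε (ca / 2) hε (by positivity)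
  obtain ⟨a, ha⟩ : ∃ a, a = A + 2 := ⟨_, rfl⟩
  obtain ⟨η', hη'⟩ : ∃ η', η' = η / 2 := ⟨_, rfl⟩
  have hη'0 : 0 < η' := by rw [hη']; positivity
  obtain ⟨X₂, hX₂⟩ := exists_nat_ge (a / η')
  refine ⟨η', ϖ, ι, n₀ + X₂, hη'0, hϖ, hι, ?_⟩
  intro Ω β Λ Θ _ p b L T om m0 th S nu X hd hX h1 h1' h2 h4
  have hp := hd.law
  have h0 := hp.nonneg
  have haX : (a : ℝ) ≤ η' * X := by
    have h3 : (a / η' : ℝ) ≤ X := hX₂.trans (by exact_mod_cast (by omega : X₂ ≤ X))
    rw [div_le_iff₀ hη'0] at h3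
    linarith
  have h2a : (0 : ℝ) < 2 ^ a := by positivity
  have h2A : (2 : ℝ) ^ a = 2 ^ A * 4 := by rw [ha, pow_add]; norm_num
  have hXr : (0 : ℝ) ≤ X := Nat.cast_nonneg _
  have hd' : WData p b L T (fun ω => om ω / 2 ^ a + 1 / 2) (fun ω => m0 ω / 2 ^ a) th
      (fun ω => S ω / 2 ^ a - th ω / 2) (fun ω => nu ω / 2 ^ a) := by
    refine ⟨hp, ?_, ?_, hd.dth, ?_, ?_, hd.hth, ?_⟩
    · intro ω ω' a1 a2 e
      show om ω / 2 ^ a + 1 / 2 = om ω' / 2 ^ a + 1 / 2
      rw [hd.dom ω ω' a1 a2 e]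
    · intro ω ω' a1 a2 e
      show m0 ω / 2 ^ a = m0 ω' / 2 ^ a
      rw [hd.dm0 ω ω' a1 a2 e]
    · intro ω ω' a1 a2 e
      show S ω / 2 ^ a - th ω / 2 = S ω' / 2 ^ a - th ω' / 2
      rw [hd.dS ω ω' a1 a2 e, hd.dth ω ω' a1 a2 e]
    · intro ω hω
      have e1 := abs_le.1 (hd.hom ω hω)
      have e2 : |om ω / 2 ^ a| ≤ 1 / 4 := by
        rw [abs_div, abs_of_pos h2a, div_le_iff₀ h2a, h2A]
        have := hd.hom ω hω
        linarith
      have e3 := abs_le.1 e2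
      constructor
      · show 0 ≤ om ω / 2 ^ a + 1 / 2
        linarith [e3.1]
      · show om ω / 2 ^ a + 1 / 2 < 1
        linarith [e3.2]
    · intro ω hω
      show nu ω / 2 ^ a = m0 ω / 2 ^ a + th ω * (om ω / 2 ^ a + 1 / 2) +
        (S ω / 2 ^ a - th ω / 2)
      rw [hd.hnu ω hω]
      ring
  have hnu : CH p (Uni.dg X (fun ω => nu ω / 2 ^ a)) (fun ω => (b ω, T ω)) ≤
      CH p (Uni.dg X nu) (fun ω => (b ω, T ω)) := by
    refine CH_mono_left h0 fun ω ω' _ _ e => ?_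
    have e1 : Uni.dg X nu ω = Uni.dg X nu ω' := (Prod.ext_iff.mp e).1
    rcases le_total a X with h | h
    · rw [dg_shift nu h]
      exact dg_eq_of (Nat.sub_le X a) e1
    · exact dg_low nu h (dg_eq_of (Nat.zero_le X) e1)
  refine le_trans ?_ hnu
  refine hW Ω β Λ Θ p b L T _ _ th _ _ X hd' (by omega) h1 h1' ?_ ?_
  · refine (indep_mono h0 (V' := Uni.dg X nu) (O' := Uni.dg X om) ?_ ?_).trans h2
    · intro ω ω' _ _ e
      rcases le_total a X with h | h
      · rw [dg_shift nu h]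
        exact dg_eq_of (Nat.sub_le X a) e
      · exact dg_low nu h (dg_eq_of (Nat.zero_le X) e)
    · intro ω ω' _ _ e
      rcases le_total a X with h | h
      · rw [dg_half om h (by omega), dg_half om h (by omega)]
        rw [dg_eq_of (Nat.sub_le X a) e]
      · exact dg_low_half om h (by omega) (dg_eq_of (Nat.zero_le X) e)
  · intro r X' hηX hrX E hE
    have hql : IsLaw (Pool.Agent.H49.Ent.cond p E True) :=
      Uni.isLaw_cond' h0 E (hϖ.trans_le hE)
    have hq0 := hql.nonneg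
    have hη2 : η * X = 2 * (η' * X) := by rw [hη']; ring
    have haX' : a ≤ X' := by
      have h3 : 0 ≤ η' * X := by positivity
      have : (a : ℝ) ≤ X' := by linarith
      exact_mod_cast this
    rcases le_total a r with har | har
    · have k1 := h4 (r - a) X' (by
        have : 0 ≤ η' * X := by positivity
        linarith) (by omega) E hE
      have k2 : 0 ≤ ca * X' * Real.log 2 := by
        have := log_two_pos
        positivity
      have k3 : CH (Pool.Agent.H49.Ent.cond p E True) (Uni.dg (r - a + X') om)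
          (fun ω => (Uni.dg (r - a) om ω, (Uni.dg (r - a) m0 ω, b ω))) ≤
          CH (Pool.Agent.H49.Ent.cond p E True) (Uni.dg (r + X') fun ω => om ω / 2 ^ a + 1 / 2)
          (fun ω => (Uni.dg r (fun ω => om ω / 2 ^ a + 1 / 2) ω,
            (Uni.dg r (fun ω => m0 ω / 2 ^ a) ω, b ω))) := by
        refine le_of_eq (CH_congr hq0 ?_ ?_ ?_ ?_)
        · intro ω ω' _ _ e
          have e1 : Uni.dg (r - a + X') om ω = Uni.dg (r - a + X') om ω' :=
            (Prod.ext_iff.mp e).1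
          rw [dg_half om (by omega) (by omega), dg_half om (by omega) (by omega),
            show r + X' - a = r - a + X' by omega, e1]
        · intro ω ω' _ _ e
          have e1 := (Prod.ext_iff.mp e).1
          have e2 : Uni.dg (r + X') (fun ω => om ω / 2 ^ a + 1 / 2) ω =
            Uni.dg (r + X') (fun ω => om ω / 2 ^ a + 1 / 2) ω' := e1
          rw [dg_half om (by omega) (by omega), dg_half om (by omega) (by omega),
            show r + X' - a = r - a + X' by omega] at e2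
          exact add_right_cancel e2
        · intro ω ω' _ _ e
          have e1 := Prod.ext_iff.mp e
          have e2 := Prod.ext_iff.mp e1.2
          have e3 : Uni.dg (r - a) om ω = Uni.dg (r - a) om ω' := e1.1
          have e4 : Uni.dg (r - a) m0 ω = Uni.dg (r - a) m0 ω' := e2.1
          refine Prod.ext ?_ (Prod.ext ?_ e2.2)
          · show Uni.dg r (fun ω => om ω / 2 ^ a + 1 / 2) ω =
              Uni.dg r (fun ω => om ω / 2 ^ a + 1 / 2) ω'
            rw [dg_half om har (by omega), dg_half om har (by omega), e3]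
          · show Uni.dg r (fun ω => m0 ω / 2 ^ a) ω = Uni.dg r (fun ω => m0 ω / 2 ^ a) ω'
            rw [dg_shift m0 har]
            exact e4
        · intro ω ω' _ _ e
          have e1 := Prod.ext_iff.mp e
          have e2 := Prod.ext_iff.mp e1.2
          have e3 : Uni.dg r (fun ω => om ω / 2 ^ a + 1 / 2) ω =
              Uni.dg r (fun ω => om ω / 2 ^ a + 1 / 2) ω' := e1.1
          have e4 : Uni.dg r (fun ω => m0 ω / 2 ^ a) ω =
            Uni.dg r (fun ω => m0 ω / 2 ^ a) ω' := e2.1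
          rw [dg_half om har (by omega), dg_half om har (by omega)] at e3
          rw [dg_shift m0 har] at e4
          exact Prod.ext (add_right_cancel e3) (Prod.ext e4 e2.2)
      linarith
    · obtain ⟨X'', hX''⟩ : ∃ X'', X'' = r + X' - a := ⟨_, rfl⟩
      have hXs : (X'' : ℝ) = r + X' - a := by
        rw [hX'', Nat.cast_sub (by omega)]
        push_cast
        ring
      have hrr : (0 : ℝ) ≤ r := Nat.cast_nonneg r
      have k1 := h4 0 X'' (by linarith) (by omega) E hE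
      have k2 : CH (Pool.Agent.H49.Ent.cond p E True) (Uni.dg (0 + X'') om)
          (fun ω => (Uni.dg 0 om ω, (Uni.dg 0 m0 ω, b ω))) ≤
          CH (Pool.Agent.H49.Ent.cond p E True) (Uni.dg (0 + X'') om)
          (fun ω => (Uni.dg r (fun ω => om ω / 2 ^ a + 1 / 2) ω,
            (Uni.dg r (fun ω => m0 ω / 2 ^ a) ω, b ω))) := by
        refine CH_mono_cond hq0 fun ω ω' _ _ e => ?_
        have e1 := Prod.ext_iff.mp e
        have e2 := Prod.ext_iff.mp e1.2
        exact Prod.ext (dg_low_half om har (by omega) e1.1)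
          (Prod.ext (dg_low m0 har e2.1) e2.2)
      have k3 : CH (Pool.Agent.H49.Ent.cond p E True) (Uni.dg (0 + X'') om)
          (fun ω => (Uni.dg r (fun ω => om ω / 2 ^ a + 1 / 2) ω,
            (Uni.dg r (fun ω => m0 ω / 2 ^ a) ω, b ω))) ≤
          CH (Pool.Agent.H49.Ent.cond p E True) (Uni.dg (r + X') fun ω => om ω / 2 ^ a + 1 / 2)
          (fun ω => (Uni.dg r (fun ω => om ω / 2 ^ a + 1 / 2) ω,
            (Uni.dg r (fun ω => m0 ω / 2 ^ a) ω, b ω))) := by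
        refine CH_mono_left hq0 fun ω ω' _ _ e => ?_
        have e2 : Uni.dg (r + X') (fun ω => om ω / 2 ^ a + 1 / 2) ω =
          Uni.dg (r + X') (fun ω => om ω / 2 ^ a + 1 / 2) ω' := (Prod.ext_iff.mp e).1
        rw [dg_half om (by omega) (by omega), dg_half om (by omega) (by omega)] at e2
        have e3 := add_right_cancel e2
        rw [Nat.zero_add, hX'']
        exact e3
      have k4 : ca / 2 * X' * Real.log 2 ≤ ca * X'' * Real.log 2 := by
        have l1 : (X' : ℝ) ≤ 2 * X'' := by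
          have : 0 ≤ η' * X := by positivity
          linarith
        have l2 : ca * X' * Real.log 2 ≤ ca * (2 * X'') * Real.log 2 :=
          mul_le_mul_of_nonneg_right (mul_le_mul_of_nonneg_left l1 hca.le) log_two_pos.le
        linarith
      linarith

theorem wda : WDAStmt := wda_of wd

end Pool.UE
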