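import Pool.Agent.H59.OC.OCB
import Pool.Agent.H48.M5.Stmts

/-!
# Lemma W: the rows of a position which is linear in the time, one value of the context

`nu = m0 + th * om + S`, where `m0`, `om` are functions of the line and `th`, `S` are functions of
the (generalised) time. If the velocity `om` has a positive proportion of entropy and is nearly
independent of `nu` at a typical time, then the rows of `nu` are not non-full on all events.
-/

set_option autoImplicit false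

namespace Pool.UE

open Finset Real
open Pool.Agent.H49.Ent Pool.Agent.H32.Dense Pool.STK Pool.KA Pool.K2S

variable {Ω Λ Θ S T U V : Type} [Fintype Ω]

/-- The data of lemma W. `b` is the context. -/
structure WData {β : Type} (p : Ω → ℝ) (b : Ω → β) (L : Ω → Λ) (T : Ω → Θ)
    (om m0 th S nu : Ω → ℝ) : Prop where
  law : IsLaw p
  dom : Det p (fun ω => (b ω, L ω)) om
  dm0 : Det p (fun ω => (b ω, L ω)) m0
  dth : Det p (fun ω => (b ω, T ω)) th
  dS : Det p (fun ω => (b ω, T ω)) S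
  hom : ∀ ω, 0 < p ω → 0 ≤ om ω ∧ om ω < 1
  hth : ∀ ω, 0 < p ω → 0 ≤ th ω ∧ th ω < 1
  hnu : ∀ ω, 0 < p ω → nu ω = m0 ω + th ω * om ω + S ω

/-- Rounding of the variables. -/
theorem hZ_aux {u om m0 t t' s s' nu nu' N N' O : ℝ} (hu : 0 < u)
    (c1 : nu = m0 + t * om + s) (c2 : nu' = m0 + t' * om + s')
    (t1 : 0 ≤ t) (t1' : t < 1) (t2 : 0 ≤ t') (t2' : t' < 1)
    (n1 : |u * nu - N| ≤ 1) (n2 : |u * nu' - N'| ≤ 1) (n3 : |u * om - O| ≤ 1) :
    |(N' - N) - u * ((O / u) * (t' - t) + (s' - s))| ≤ 4 := by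
  have e1 : (N' - N) - u * ((O / u) * (t' - t) + (s' - s)) =
      -(u * nu' - N') + (u * nu - N) + (t' - t) * (u * om - O) := by
    rw [c1, c2]
    field_simp
    ring
  rw [e1]
  have a1 : |t' - t| ≤ 1 := by
    rw [abs_le]
    constructor <;> linarith
  have b1 := Uni.abs_mul_le a1 n3
  rw [abs_le] at n1 n2 b1 ⊢
  constructor <;> linarith

open Classical in
/-- The data with integer variables. -/
noncomputable def mkN (q : Ω → ℝ) (L : Ω → Λ) (T : Ω → Θ) (fom : Λ → ℝ) (fth fS : Θ → ℝ)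
    (nu : Ω → ℝ) (X : ℕ) : Pool.M5.NDat 1 where
  Om := Ω
  Lam := Λ
  Tau := Θ
  P := q
  L := L
  T := T
  v := fun l _ => if 0 ≤ fom l ∧ fom l < 1 then ⌊(2 : ℝ) ^ X * fom l⌋ else 0
  N := Uni.dg X nu
  th := fun t => if 0 ≤ fth t ∧ fth t < 1 then fth t else 0
  s := fS
  X := X

theorem w_one {κ ϖ ι ε₁ c ε : ℝ} {j₀ X₀ : ℕ}
    (hN : ∀ d : Pool.M5.NDat 1, d.OK 2 → X₀ ≤ d.X → d.H1 ι j₀ ε₁ → d.toR.H2 ι →
      d.toR.H5 c κ ϖ ∅ → H d.P (fun ω => d.v (d.L ω)) ≤ ε * d.X * Real.log 2)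
    {q : Ω → ℝ} {L : Ω → Λ} {T : Ω → Θ} {om m0 th S nu : Ω → ℝ}
    (hd : WData q (fun _ => ()) L T om m0 th S nu) {X : ℕ} (hX : X₀ ≤ X)
    (h1 : Pool.KVA.MI q T L (fun _ => ()) ≤ ι * X)
    (h1' : (1 - ι) * X * Real.log 2 ≤ CH q (Uni.dg X th) L)
    (h1j : j₀ * Real.log 2 - ε₁ ≤ CH q (Uni.dg j₀ th) L)
    (h2 : CH q (Uni.dg X nu) T - CH q (Uni.dg X nu) (fun ω => (Uni.dg X om ω, T ω)) ≤ ι * X)
    (h4 : ε * X * Real.log 2 < H q (Uni.dg X om)) :
    ∃ j : ℕ, (j + 1) * ⌊κ * X⌋₊ ≤ X ∧ ∃ E : Ω → Prop, ϖ ≤ Pe q E ∧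
      (1 - c) * ⌊κ * X⌋₊ * Real.log 2 <
        CH (Pool.Agent.H49.Ent.cond q E True) (Uni.dg ((j + 1) * ⌊κ * X⌋₊) nu)
          (fun ω => (Uni.dg (j * ⌊κ * X⌋₊) nu ω, T ω)) := by
  classical
  by_contra hcon
  push Not at hcon
  have hq := hd.law
  have h0 := hq.nonneg
  have det : ∀ {x : Ω → ℝ}, Det q (fun ω => ((), L ω)) x → Det q L x := fun h ω ω' a b e =>
    h ω ω' a b (Prod.ext rfl e)
  have detT : ∀ {x : Ω → ℝ}, Det q (fun ω => ((), T ω)) x → Det q T x := fun h ω ω' a b e =>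
    h ω ω' a b (Prod.ext rfl e)
  obtain ⟨fom, hfom⟩ := Uni.exists_fun (det hd.dom)
  obtain ⟨fm, hfm⟩ := Uni.exists_fun (det hd.dm0)
  obtain ⟨fth, hfth⟩ := Uni.exists_fun (detT hd.dth)
  obtain ⟨fS, hfS⟩ := Uni.exists_fun (detT hd.dS)
  have h2X : (0 : ℝ) < 2 ^ X := by positivity
  have bnd : ∀ x : ℝ, |x - ⌊x⌋| ≤ 1 := fun x => by
    rw [abs_le]
    have := Int.floor_le x
    have := Int.lt_floor_add_one x
    constructor <;> linarith
  -- the values on the support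
  have eth : ∀ ω, 0 < q ω → (mkN q L T fom fth fS nu X).th (T ω) = th ω := by
    intro ω hω
    show (if 0 ≤ fth (T ω) ∧ fth (T ω) < 1 then fth (T ω) else 0) = th ω
    rw [← hfth ω hω, if_pos (hd.hth ω hω)]
  have ev : ∀ ω, 0 < q ω → ∀ j, (mkN q L T fom fth fS nu X).v (L ω) j = Uni.dg X om ω := by
    intro ω hω j
    show (if 0 ≤ fom (L ω) ∧ fom (L ω) < 1 then ⌊(2 : ℝ) ^ X * fom (L ω)⌋ else 0) = _
    rw [← hfom ω hω, if_pos (hd.hom ω hω)]
    rfl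
  have eZ : ∀ t t' v, (mkN q L T fom fth fS nu X).toR.ZR t t' v =
      (v 0 / 2 ^ X) * ((mkN q L T fom fth fS nu X).th t' - (mkN q L T fom fth fS nu X).th t) +
        (fS t' - fS t) := by
    intro t t' v
    show ∑ j : Fin 1, (v j / 2 ^ X) * ((mkN q L T fom fth fS nu X).th t' ^ (j.val + 1) -
      (mkN q L T fom fth fS nu X).th t ^ (j.val + 1)) + (fS t' - fS t) = _
    rw [Fin.sum_univ_one]
    simp
  have hok : (mkN q L T fom fth fS nu X).OK 2 := by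
    refine ⟨hq, ?_, ?_, ?_, ?_⟩
    · intro l j
      show |((if 0 ≤ fom l ∧ fom l < 1 then ⌊(2 : ℝ) ^ X * fom l⌋ else 0 : ℤ) : ℝ) / 2 ^ X| ≤ 1
      by_cases h : 0 ≤ fom l ∧ fom l < 1
      · rw [if_pos h]
        have a1 : (0 : ℝ) ≤ ⌊(2 : ℝ) ^ X * fom l⌋ := by
          exact_mod_cast Int.floor_nonneg.2 (mul_nonneg h2X.le h.1)
        rw [abs_of_nonneg (div_nonneg a1 h2X.le), div_le_iff₀ h2X]
        have a2 := Int.floor_le ((2 : ℝ) ^ X * fom l)
        have a3 : (2 : ℝ) ^ X * fom l ≤ 2 ^ X * 1 := mul_le_mul_of_nonneg_left h.2.le h2X.le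
        linarith
      · rw [if_neg h]
        simp
    · intro ω ω' a b e
      have e1 : L ω = L ω' := (Prod.ext_iff.mp e).1
      have e2 : T ω = T ω' := (Prod.ext_iff.mp e).2
      show ⌊(2 : ℝ) ^ X * nu ω⌋ = ⌊(2 : ℝ) ^ X * nu ω'⌋
      rw [hd.hnu ω a, hd.hnu ω' b, hfom ω a, hfom ω' b,
        hfm ω a, hfm ω' b, hfth ω a, hfth ω' b, hfS ω a, hfS ω' b, e1, e2]
    · intro t
      show 0 ≤ (if 0 ≤ fth t ∧ fth t < 1 then fth t else 0) ∧
        (if 0 ≤ fth t ∧ fth t < 1 then fth t else 0) < 1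
      by_cases h : 0 ≤ fth t ∧ fth t < 1
      · rw [if_pos h]
        exact h
      · rw [if_neg h]
        exact ⟨le_rfl, one_pos⟩
    · intro ω ω' a b e
      have e1 : L ω = L ω' := e
      have e3 := eZ (T ω) (T ω') ((mkN q L T fom fth fS nu X).v (L ω))
      show |((⌊(2 : ℝ) ^ X * nu ω'⌋ : ℝ) - ⌊(2 : ℝ) ^ X * nu ω⌋) - 2 ^ X *
        (mkN q L T fom fth fS nu X).toR.ZR (T ω) (T ω')
          ((mkN q L T fom fth fS nu X).v (L ω))| ≤ 2 ^ 2
      rw [e3, eth ω a, eth ω' b, ev ω a, ← hfS ω a, ← hfS ω' b]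
      have c1 := hd.hnu ω a
      have c2 := hd.hnu ω' b
      have d2 : om ω' = om ω := by rw [hfom ω a, hfom ω' b, e1]
      have d4 : m0 ω' = m0 ω := by rw [hfm ω a, hfm ω' b, e1]
      rw [d2, d4] at c2
      obtain ⟨t1, t1'⟩ := hd.hth ω a
      obtain ⟨t2, t2'⟩ := hd.hth ω' b
      have n1 := bnd ((2 : ℝ) ^ X * nu ω)
      have n2 := bnd ((2 : ℝ) ^ X * nu ω')
      have n3 := bnd ((2 : ℝ) ^ X * om ω)
      refine (hZ_aux h2X c1 c2 t1 t1' t2 t2' n1 n2 n3).trans (by norm_num)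
  have key := hN _ hok hX ⟨h1, ?_, ?_⟩ ?_ ?_
  · -- the entropy of the velocity
    have h3 : H q (Uni.dg X om) ≤ H q (fun ω => (mkN q L T fom fth fS nu X).v (L ω)) := by
      refine H_mono h0 fun ω ω' a b e => ?_
      have e' := congrFun e 0
      rw [← ev ω a 0, ← ev ω' b 0]
      exact e'
    exact absurd (h4.trans_le h3) (not_lt.2 key)
  · -- H1
    refine h1'.trans (le_of_eq ?_)
    refine Uni.CH_eq_of h0 (fun ω hω => ?_) fun _ _ => rfl
    show ⌊(2 : ℝ) ^ X * th ω⌋ = ⌊(2 : ℝ) ^ X * (mkN q L T fom fth fS nu X).th (T ω)⌋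
    rw [eth ω hω]
  · refine h1j.trans (le_of_eq ?_)
    refine Uni.CH_eq_of h0 (fun ω hω => ?_) fun _ _ => rfl
    show ⌊(2 : ℝ) ^ j₀ * th ω⌋ = ⌊(2 : ℝ) ^ j₀ * (mkN q L T fom fth fS nu X).th (T ω)⌋
    rw [eth ω hω]
  · -- H2
    show Pool.KVA.MI q (Uni.dg X nu) (fun ω => (mkN q L T fom fth fS nu X).v (L ω)) T ≤ ι * X
    have k1 := CH_chain h0 (Uni.dg X nu) (fun ω => (mkN q L T fom fth fS nu X).v (L ω)) T
    have k2 : CH q (Uni.dg X nu) (fun ω => (Uni.dg X om ω, T ω)) ≤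
        CH q (Uni.dg X nu) (fun ω => ((mkN q L T fom fth fS nu X).v (L ω), T ω)) := by
      refine CH_mono_cond h0 fun ω ω' a b e => ?_
      have e1 := Prod.ext_iff.mp e
      have e2 : Uni.dg X om ω = Uni.dg X om ω' := e1.1
      refine Prod.ext ?_ e1.2
      show (mkN q L T fom fth fS nu X).v (L ω) = (mkN q L T fom fth fS nu X).v (L ω')
      funext j
      rw [ev ω a j, ev ω' b j, e2]
    have k3 : CH q (Uni.dg X nu) (fun ω => ((mkN q L T fom fth fS nu X).v (L ω), T ω)) ≤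
        CH q (Uni.dg X nu) (fun ω => (Uni.dg X om ω, T ω)) := by
      refine CH_mono_cond h0 fun ω ω' a b e => ?_
      have e1 := Prod.ext_iff.mp e
      have e2 : (mkN q L T fom fth fS nu X).v (L ω) = (mkN q L T fom fth fS nu X).v (L ω') := e1.1
      refine Prod.ext ?_ e1.2
      show Uni.dg X om ω = Uni.dg X om ω'
      rw [← ev ω a 0, ← ev ω' b 0, e2]
    unfold Pool.KVA.MI
    rw [k1]
    linarith
  · -- H5
    intro j _ hj E hE
    have k1 := hcon j hj (fun ω => ω ∈ E) hE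
    refine le_trans (le_of_eq ?_) k1
    have hj' : j * ⌊κ * X⌋₊ ≤ X := le_trans (Nat.mul_le_mul_right _ (Nat.le_succ j)) hj
    have r1 : (mkN q L T fom fth fS nu X).toR.row ((j + 1) * ⌊κ * X⌋₊) =
        Uni.dg ((j + 1) * ⌊κ * X⌋₊) nu := by
      funext ω
      exact Uni.floor_row hj (nu ω)
    have r2 : (mkN q L T fom fth fS nu X).toR.row (j * ⌊κ * X⌋₊) =
        Uni.dg (j * ⌊κ * X⌋₊) nu := by
      funext ω
      exact Uni.floor_row hj' (nu ω)
    show CH (Pool.Agent.H49.Ent.cond q (fun ω => ω ∈ E) True)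
      ((mkN q L T fom fth fS nu X).toR.row ((j + 1) * ⌊κ * X⌋₊))
      (fun ω => ((mkN q L T fom fth fS nu X).toR.row (j * ⌊κ * X⌋₊) ω, T ω)) = _
    rw [r1, r2]

end Pool.UE
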